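import Pool.Agent.MP_4fffd4_nt.AN.GStmts

/-!
Sign patterns of the Liouville function, all lengths: the inductive step of the decoupling.
-/

open Finset Filter
open scoped BigOperators ComplexConjugate Topology

noncomputable section

namespace Pool.Agent.MP_4fffd4_nt.AN

open Pool.Agent.MP_4fffd4_nt.SX

theorem absE_Kl1 {α : Type} (s : Finset α) {f : α → ℝ} {C : ℝ} (hC : 0 ≤ C)
    (h : ∀ a ∈ s, |f a| ≤ C) : |𝔼 a ∈ s, f a| ≤ C := by
  rcases s.eq_empty_or_nonempty with rfl | hs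
  · simpa using hC
  · exact (abs_expect_le _ _).trans (expect_le hs h)

theorem leE_Kl1 {α : Type} (s : Finset α) {f : α → ℝ} {C : ℝ} (hC : 0 ≤ C)
    (h : ∀ a ∈ s, f a ≤ C) : 𝔼 a ∈ s, f a ≤ C := by
  rcases s.eq_empty_or_nonempty with rfl | hs
  · simpa using hC
  · exact expect_le hs h

theorem comm3_Kl1 {α β γ : Type} (s : Finset α) (t : Finset β) (u : Finset γ) (f : α → β → γ → ℝ) :
    𝔼 x ∈ s, 𝔼 h ∈ t, 𝔼 v ∈ u, f x h v = 𝔼 v ∈ u, 𝔼 x ∈ s, 𝔼 h ∈ t, f x h v := by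
  rw [expect_comm u]
  exact expect_congr rfl fun x _ => expect_comm _ _ _

section wt

variable {V : Type} [Fintype V]

theorem wt_add_Kl1 (p : ℕ) (c h v : V → ℤ) : wt p c (h + v) = wt p (c - v) h := by
  have : ∀ i, (h + v) i - c i = h i - (c - v) i := fun i => by simp only [Pi.add_apply, Pi.sub_apply]; ring
  simp only [wt, this]

theorem wt_nonneg_Kl1 (p : ℕ) (c h : V → ℤ) : 0 ≤ wt p c h := by
  unfold wt; split_ifs <;> positivity

theorem abs_wt_Kl1 {p Q : ℕ} (hp : 1 ≤ p) (hQ : p ≤ Q) (c h : V → ℤ) :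
    |wt p c h - 1| ≤ (Q : ℝ) ^ Fintype.card V := by
  have h1 : (1 : ℝ) ≤ (p : ℝ) ^ Fintype.card V := one_le_pow₀ (by exact_mod_cast hp)
  have h2 : (p : ℝ) ^ Fintype.card V ≤ (Q : ℝ) ^ Fintype.card V :=
    pow_le_pow_left₀ (by positivity) (by exact_mod_cast hQ) _
  unfold wt
  split_ifs <;> rw [abs_le] <;> constructor <;> linarith

theorem wt_dil_Kl1 {p q : ℕ} {u k : ℤ} (e : u * q + k * p = 1) (c ρ h : V → ℤ) :
    wt p c (fun v => q * h v + ρ v) = wt p (fun v => u * (c v - ρ v)) h := by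
  have : ∀ v, (p : ℤ) ∣ q * h v + ρ v - c v ↔ (p : ℤ) ∣ h v - u * (c v - ρ v) := fun v => by
    constructor
    · rintro ⟨m, hm⟩
      exact ⟨u * m + k * h v, by linear_combination u * hm - h v * e⟩
    · rintro ⟨m, hm⟩
      exact ⟨q * m - k * (c v - ρ v), by linear_combination q * hm + (c v - ρ v) * e⟩
  simp only [wt, this]

variable [DecidableEq V]

theorem cell_wt_Kl1 (hC : ClsStmt) {q Q : ℕ} (hq : 1 ≤ q) (hQ : q ≤ Q) (c h : V → ℤ) :
    𝔼 v ∈ cell V Q, wt q c (h + v) ≤ 2 ^ Fintype.card V := by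
  have e : cell V Q = bx (fun _ => -1) (fun _ => (Q : ℤ) - 1) := by
    ext y
    simp only [mem_cell, mem_bx]
    exact forall_congr' fun v => by omega
  obtain ⟨a', b', t, h0, h1, -, h2⟩ := hC V (fun _ => -1) (fun _ => (Q : ℤ) - 1) (c - h) Q q hq
    (by exact_mod_cast hQ) (fun _ => by push_cast; linarith)
  have h3 := h2 fun _ => 1
  have h4 : 𝔼 _y ∈ bx a' b', (1 : ℝ) ≤ 1 := leE_Kl1 _ zero_le_one fun _ _ => le_rfl
  simp only [mul_one] at h3
  simp only [e, add_comm h, wt_add_Kl1, h3]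
  nlinarith

theorem off_Kl1 (hC : ClsStmt) {r : ℕ} {Pr : Finset ℕ} {Q : ℕ} {M ε : ℝ}
    (hP : ∀ p ∈ Pr, p.Prime ∧ p ≤ Q) (hM : 2 * (Q : ℝ) ≤ M)
    (hK : KL V r Pr (M / (2 * Q)) ε) {q : ℕ} (hq : q ∈ Pr) (A : Type) [AddCommGroup A] [Fintype A]
    (G : Fin r → A → ℝ) (L : Fin r → (V → ℤ) →+ A) (a b : V → ℤ) (σ : ℕ → ℝ) (c : ℕ → V → ℤ)
    (ρ : V → ℤ) (hG : ∀ i x, |G i x| ≤ 1) (hσ : ∀ p, |σ p| ≤ 1) (h0 : σ q = 0)
    (hab : ∀ v, M ≤ (b v : ℝ) - a v) :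
    |𝔼 x, 𝔼 h ∈ bx a b, ((∏ i, G i (x + L i h)) * 𝔼 p ∈ Pr, σ p * (wt p (c p) h - 1)) *
      (wt q ρ h - 1)| ≤ (2 ^ Fintype.card V + 1) * ε := by
  obtain ⟨hq1, hq2⟩ := hP q hq
  have q1 : (1 : ℝ) ≤ q := by exact_mod_cast hq1.one_le
  have q2 : (q : ℝ) ≤ Q := by exact_mod_cast hq2
  have m1 : 1 ≤ M / (2 * Q) := by rw [le_div_iff₀ (by linarith)]; linarith
  have m2 : M / (2 * Q) ≤ M := div_le_self (by linarith) (by linarith)
  have m3 : M / (2 * Q) ≤ M / q - 1 := by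
    have : M / Q ≤ M / q := div_le_div_of_nonneg_left (by linarith) (by linarith) q2
    have e : M / Q = 2 * (M / (2 * Q)) := by field_simp
    linarith
  have T2 := hK A G L a b σ c hG hσ fun v => m2.trans (hab v)
  obtain ⟨a', b', t, t0, t1, t2, t3⟩ := hC V a b ρ M q hq1.one_le (by linarith) hab
  have hu : ∀ p, ∃ u : ℤ, p ∈ Pr → p ≠ q → ∃ k : ℤ, u * q + k * p = 1 := fun p => by
    by_cases hp : p ∈ Pr ∧ p ≠ q
    · obtain ⟨u, k, e⟩ := Nat.isCoprime_iff_coprime.2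
        ((Nat.coprime_primes hq1 (hP p hp.1).1).2 (Ne.symm hp.2))
      exact ⟨u, fun _ _ => ⟨k, e⟩⟩
    · exact ⟨0, fun h1 h2 => absurd ⟨h1, h2⟩ hp⟩
  choose u hu using hu
  have T1 := hK A (fun i x => G i (x + L i ρ)) (fun i => q • L i) a' b' σ
    (fun p v => u p * (c p v - ρ v)) (fun i x => hG i _) hσ fun v => m3.trans (t2 v)
  have e1 : ∀ x, 𝔼 h ∈ bx a b, wt q ρ h *
      ((∏ i, G i (x + L i h)) * 𝔼 p ∈ Pr, σ p * (wt p (c p) h - 1)) =
      t * 𝔼 h ∈ bx a' b', (∏ i, G i (x + (q • L i) h + L i ρ)) *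
        𝔼 p ∈ Pr, σ p * (wt p (fun v => u p * (c p v - ρ v)) h - 1) := fun x => by
    rw [t3]
    congr 1
    refine expect_congr rfl fun h _ => ?_
    congr 1
    · refine prod_congr rfl fun i _ => ?_
      have : (fun v => (q : ℤ) * h v + ρ v) = q • h + ρ := by
        funext v; simp
      rw [this, map_add, map_nsmul, AddMonoidHom.nsmul_apply, add_assoc]
    · refine expect_congr rfl fun p hp => ?_
      by_cases hpq : p = q
      · simp [hpq, h0]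
      · obtain ⟨k, e⟩ := hu p hp hpq
        rw [wt_dil_Kl1 e]
  have e2 : 𝔼 x, 𝔼 h ∈ bx a b, ((∏ i, G i (x + L i h)) * 𝔼 p ∈ Pr, σ p * (wt p (c p) h - 1)) *
      (wt q ρ h - 1) = t * (𝔼 x, 𝔼 h ∈ bx a' b', (∏ i, G i (x + (q • L i) h + L i ρ)) *
        𝔼 p ∈ Pr, σ p * (wt p (fun v => u p * (c p v - ρ v)) h - 1)) -
      𝔼 x, 𝔼 h ∈ bx a b, (∏ i, G i (x + L i h)) * 𝔼 p ∈ Pr, σ p * (wt p (c p) h - 1) := by
    rw [mul_expect, ← expect_sub_distrib]
    refine expect_congr rfl fun x _ => ?_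
    rw [← e1, ← expect_sub_distrib]
    exact expect_congr rfl fun h _ => by ring
  rw [e2]
  refine (abs_sub _ _).trans ?_
  rw [abs_mul, abs_of_nonneg t0]
  have := mul_le_mul t1 T1 (abs_nonneg _) (by positivity)
  linarith

end wt

theorem split_Kl1 {Pr : Finset ℕ} {q : ℕ} (hq : q ∈ Pr) (σ w : ℕ → ℝ) :
    𝔼 p ∈ Pr, σ p * w p = σ q * w q / Pr.card + 𝔼 p ∈ Pr, (if p = q then 0 else σ p) * w p := by
  rw [expect_eq_sum_div_card, expect_eq_sum_div_card, ← add_div, ← add_sum_erase _ _ hq,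
    ← add_sum_erase _ _ hq]
  simp only [if_true, zero_mul, zero_add]
  congr 2
  exact sum_congr rfl fun p hp => by rw [if_neg (ne_of_mem_erase hp)]

theorem kl1_stmt (hS : ShiftStmt) (hC : ClsStmt) : Kl1Stmt := by
  intro V _ _ r Pr Q M ε hP hne hM hε hK A _ _ F L a b σ c hF hσ hab
  obtain ⟨p₀, hp₀⟩ := hne
  have Q1 : 1 ≤ Q := (hP p₀ hp₀).1.one_le.trans (hP p₀ hp₀).2
  have Q2 : (1 : ℝ) ≤ Q := by exact_mod_cast Q1
  have M0 : 0 < M := by linarith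
  have n0 : (0 : ℝ) < Pr.card := by exact_mod_cast card_pos.2 ⟨p₀, hp₀⟩
  have cne : (cell V Q).Nonempty := card_pos.1 (by rw [card_cell]; positivity)
  set s := Fintype.card V with hs
  obtain ⟨W, hW⟩ : ∃ W : (V → ℤ) → ℝ, ∀ h, W h = 𝔼 p ∈ Pr, σ p * (wt p (c p) h - 1) :=
    ⟨_, fun _ => rfl⟩
  obtain ⟨L', hL'⟩ : ∃ L' : Fin r → (V → ℤ) →+ A, ∀ i h, L' i h = L i.succ h - L 0 h :=
    ⟨fun i => L i.succ - L 0, fun _ _ => rfl⟩
  obtain ⟨P, hPd⟩ : ∃ P : A → (V → ℤ) → ℝ, ∀ x h, P x h = ∏ i : Fin r, F i.succ (x + L' i h) :=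
    ⟨_, fun _ _ => rfl⟩
  have P1 : ∀ x h, |P x h| ≤ 1 := fun x h => by
    rw [hPd, abs_prod]
    exact prod_le_one (fun _ _ => abs_nonneg _) fun _ _ => hF _ _
  have W1 : ∀ h, |W h| ≤ (Q : ℝ) ^ s := fun h => by
    rw [hW]
    refine absE_Kl1 _ (by positivity) fun p hp => ?_
    rw [abs_mul]
    exact (mul_le_mul (hσ p) (abs_wt_Kl1 (hP p hp).1.one_le (hP p hp).2 _ _) (abs_nonneg _)
      zero_le_one).trans_eq (one_mul _)
  obtain ⟨g, hg⟩ : ∃ g : (V → ℤ) → ℝ, ∀ h, g h = 𝔼 x, F 0 x * (P x h * W h) := ⟨_, fun _ => rfl⟩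
  have g1 : ∀ h, |g h| ≤ (Q : ℝ) ^ s := fun h => by
    rw [hg]
    refine absE_Kl1 _ (by positivity) fun x _ => ?_
    rw [abs_mul, abs_mul]
    have := mul_le_mul (P1 x h) (W1 h) (abs_nonneg _) zero_le_one
    exact (mul_le_mul (hF 0 x) this (by positivity) zero_le_one).trans_eq (by ring)
  have e1 : 𝔼 x, 𝔼 h ∈ bx a b, (∏ i, F i (x + L i h)) * 𝔼 p ∈ Pr, σ p * (wt p (c p) h - 1) =
      𝔼 h ∈ bx a b, g h := by
    rw [expect_comm]
    refine expect_congr rfl fun h _ => ?_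
    rw [hg]
    refine Fintype.expect_equiv (Equiv.addRight (L 0 h)) _ _ fun x => ?_
    rw [Fin.prod_univ_succ, hPd, hW, mul_assoc]
    simp only [Equiv.coe_addRight, hL', add_assoc]
    simp only [add_sub_cancel]
  have e2 : |𝔼 v ∈ cell V Q, 𝔼 h ∈ bx a b, g (h + v) - 𝔼 h ∈ bx a b, g h| ≤
      2 * s * (Q : ℝ) ^ (s + 1) / M := by
    rw [← expect_const cne (𝔼 h ∈ bx a b, g h), ← expect_sub_distrib]
    refine absE_Kl1 _ (by positivity) fun v hv => ?_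
    have h1 := hS V a b v M Q ((Q : ℝ) ^ s) g M0 hab (fun i => by
      obtain ⟨h1, h2⟩ := mem_cell.1 hv i
      rw [abs_of_nonneg (by exact_mod_cast h1)]
      exact_mod_cast h2.le) g1
    rw [expect_eq_sum_div_card, expect_eq_sum_div_card, ← sub_div, abs_div, Nat.abs_cast]
    refine div_le_of_le_mul₀ (by positivity) (by positivity) (h1.trans_eq ?_)
    rw [pow_succ]; ring
  obtain ⟨S, hSd⟩ : ∃ S : A → (V → ℤ) → ℝ, ∀ x h, S x h = 𝔼 v ∈ cell V Q, P x (h + v) * W (h + v) :=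
    ⟨_, fun _ _ => rfl⟩
  have e3 : 𝔼 v ∈ cell V Q, 𝔼 h ∈ bx a b, g (h + v) = 𝔼 x, 𝔼 h ∈ bx a b, F 0 x * S x h := by
    simp only [hg, hSd, mul_expect]
    rw [expect_comm, expect_comm univ]
    exact expect_congr rfl fun h _ => expect_comm _ _ _
  have e4 : (𝔼 x, 𝔼 h ∈ bx a b, F 0 x * S x h) ^ 2 ≤ 𝔼 x, 𝔼 h ∈ bx a b, S x h ^ 2 := by
    refine (sq_expect_le _ _).trans (expect_le_expect fun x _ => (sq_expect_le _ _).trans
      (expect_le_expect fun h _ => ?_))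
    rw [mul_pow]
    exact mul_le_of_le_one_left (sq_nonneg _) ((sq_le_one_iff_abs_le_one _).2 (hF 0 x))
  obtain ⟨D, hD⟩ : ∃ D : ℕ → A → (V → ℤ) → ℝ, ∀ q x h, D q x h =
      𝔼 v ∈ cell V Q, P x (h + v) * (σ q * (wt q (c q) (h + v) - 1)) := ⟨_, fun _ _ _ => rfl⟩
  obtain ⟨E, hE⟩ : ∃ E : ℕ → A → (V → ℤ) → ℝ, ∀ q x h, E q x h = 𝔼 v ∈ cell V Q, P x (h + v) *
      𝔼 p ∈ Pr, (if p = q then 0 else σ p) * (wt p (c p) (h + v) - 1) := ⟨_, fun _ _ _ => rfl⟩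
  have e5 : ∀ x h, S x h ^ 2 = 𝔼 q ∈ Pr, (D q x h ^ 2 / Pr.card + E q x h * D q x h) := by
    intro x h
    have h1 : S x h = 𝔼 q ∈ Pr, D q x h := by
      simp only [hSd, hD, hW, mul_expect]
      exact expect_comm _ _ _
    have h2 : ∀ q ∈ Pr, S x h = D q x h / Pr.card + E q x h := fun q hq => by
      rw [hSd, hD, hE, div_eq_mul_inv, expect_mul, ← expect_add_distrib]
      refine expect_congr rfl fun v _ => ?_
      rw [hW, split_Kl1 hq]; ring
    rw [sq]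
    nth_rewrite 2 [h1]
    rw [mul_expect]
    exact expect_congr rfl fun q hq => by rw [h2 q hq]; ring
  have D1 : ∀ q ∈ Pr, ∀ x h, D q x h ^ 2 ≤ (2 ^ s + 1) ^ 2 := fun q hq x h => by
    refine sq_le_sq' (neg_le_of_abs_le ?_) (le_of_abs_le ?_) <;>
    · rw [hD]
      refine (abs_expect_le _ _).trans ((expect_le_expect (g := fun v => wt q (c q) (h + v) + 1)
        fun v _ => ?_).trans ?_)
      · rw [abs_mul, abs_mul]
        have h1 : |wt q (c q) (h + v) - 1| ≤ wt q (c q) (h + v) + 1 := by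
          have := wt_nonneg_Kl1 q (c q) (h + v)
          rw [abs_le]; constructor <;> linarith
        have := mul_le_mul (hσ q) h1 (abs_nonneg _) zero_le_one
        exact (mul_le_mul (P1 x _) this (by positivity) zero_le_one).trans_eq (by ring)
      · rw [expect_add_distrib, expect_const cne]
        have := cell_wt_Kl1 hC (hP q hq).1.one_le (hP q hq).2 (c q) h
        linarith
  have E1 : ∀ q ∈ Pr, 𝔼 x, 𝔼 h ∈ bx a b, E q x h * D q x h ≤ (2 ^ s + 1) * ε := fun q hq => by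
    have h1 : 𝔼 x, 𝔼 h ∈ bx a b, E q x h * D q x h = 𝔼 v ∈ cell V Q, 𝔼 v' ∈ cell V Q, σ q *
        𝔼 x, 𝔼 h ∈ bx a b, ((∏ i, (fun i y => F (Fin.succ i) (y + L' i v) * F i.succ (y + L' i v'))
          i (x + L' i h)) * 𝔼 p ∈ Pr, (if p = q then 0 else σ p) * (wt p (c p - v) h - 1)) *
          (wt q (c q - v') h - 1) := by
      simp only [hE, hD, expect_mul_expect]
      refine (comm3_Kl1 _ _ _ _).trans (expect_congr rfl fun v _ => ?_)
      refine (comm3_Kl1 _ _ _ _).trans (expect_congr rfl fun v' _ => ?_)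
      rw [mul_expect]
      refine expect_congr rfl fun x _ => ?_
      rw [mul_expect]
      refine expect_congr rfl fun h _ => ?_
      simp only [hPd, wt_add_Kl1, map_add, prod_mul_distrib, add_assoc]
      ring
    rw [h1]
    have h2 : 0 ≤ (2 ^ s + 1) * ε := by positivity
    refine leE_Kl1 _ h2 fun v _ => leE_Kl1 _ h2 fun v' _ => ?_
    have h3 := off_Kl1 hC hP hM hK hq A
      (fun i y => F (Fin.succ i) (y + L' i v) * F i.succ (y + L' i v')) L' a b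
      (fun p => if p = q then 0 else σ p) (fun p => c p - v) (c q - v')
      (fun i x => by
        rw [abs_mul]
        exact mul_le_one₀ (hF _ _) (abs_nonneg _) (hF _ _))
      (fun p => by
        split_ifs
        · simp
        · exact hσ p) (by simp) hab
    refine (le_abs_self _).trans ?_
    rw [abs_mul]
    exact (mul_le_of_le_one_left (abs_nonneg _) (hσ q)).trans h3
  have e6 : 𝔼 x, 𝔼 h ∈ bx a b, S x h ^ 2 ≤ (2 ^ s + 1) ^ 2 / Pr.card + (2 ^ s + 1) * ε := by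
    simp only [e5]
    rw [comm3_Kl1]
    refine leE_Kl1 _ (by positivity) fun q hq => ?_
    simp only [expect_add_distrib]
    refine add_le_add (leE_Kl1 _ (by positivity) fun x _ => leE_Kl1 _ (by positivity) fun h _ => ?_)
      (E1 q hq)
    exact div_le_div_of_nonneg_right (D1 q hq x h) n0.le
  have e7 := Real.abs_le_sqrt (e4.trans e6)
  rw [e1]
  rw [← e3] at e7
  have := abs_sub_abs_le_abs_sub (𝔼 h ∈ bx a b, g h) (𝔼 v ∈ cell V Q, 𝔼 h ∈ bx a b, g (h + v))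
  rw [abs_sub_comm] at this
  linarith

end Pool.Agent.MP_4fffd4_nt.AN
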