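import Pool.Agent.MP_4fffd4_nt.AN.GStmts

open Finset Filter
open scoped BigOperators ComplexConjugate Topology

noncomputable section

namespace Pool.Agent.MP_4fffd4_nt.AN

open Pool.Agent.MP_4fffd4_nt.SX

lemma re_MChi {c T : ℝ} (h0 : 0 < c) (hc : c ≤ 1 / 4) (hT : 3 ≤ T) {s : ℂ}
    (hs : |s.re - 1| ≤ c / Real.log T ^ 30) : 3 / 4 ≤ s.re := by
  have h1 : 1 ≤ Real.log T := by
    rw [Real.le_log_iff_exp_le (by linarith)]
    linarith [Real.exp_one_lt_d9]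
  have h2 : c / Real.log T ^ 30 ≤ c := div_le_self h0.le (one_le_pow₀ h1)
  linarith [(abs_le.1 hs).1]

lemma gen_MChi (hT : TauStmt) (hS : SqStmt) (q : ℕ) [NeZero q] (χ : DirichletCharacter ℂ q)
    (G : ℂ → ℂ) (c K' : ℝ) (h0 : 0 < c) (hc : c ≤ 1 / 4) (hK : 0 ≤ K')
    (hG : ∀ T : ℝ, 3 ≤ T → ∀ s : ℂ, |s.re - 1| ≤ c / Real.log T ^ 30 → |s.im| ≤ T →
      DifferentiableAt ℂ G s ∧ ‖G s‖ ≤ K' * Real.log T ^ 30)
    (hG' : ∀ s : ℂ, 1 < s.re → G s = (DirichletCharacter.LFunction χ s)⁻¹) : ∀ᶠ x : ℝ in atTop,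
    ‖∑ n ∈ Icc 1 ⌊x⌋₊, χ n * (lam (n : ℤ) : ℂ)‖ ≤ x * Real.exp (-Real.log x ^ (1 / 35 : ℝ)) := by
  obtain ⟨H, K, h1, h2⟩ := hS q χ
  filter_upwards [hT c (|K| * K') h0 hc (by positivity)] with x hx
  refine hx (fun n : ℕ => χ n * (lam (n : ℤ) : ℂ)) (fun s => H s * G s) (fun n => ?_)
    (fun T hT s hs hs' => ?_) fun s hs => ?_
  · rw [norm_mul, norm_lam, mul_one]
    exact χ.norm_le_one _
  · obtain ⟨a1, a2⟩ := h1 s (re_MChi h0 hc hT hs)
    obtain ⟨b1, b2⟩ := hG T hT s hs hs'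
    refine ⟨a1.mul b1, ?_⟩
    rw [norm_mul, mul_assoc]
    exact mul_le_mul (a2.trans (le_abs_self K)) b2 (norm_nonneg _) (abs_nonneg _)
  · have h3 : DirichletCharacter.LFunction χ s ≠ 0 :=
      χ.LFunction_ne_zero_of_one_le_re (Or.inr fun e => by simp [e] at hs) hs.le
    rw [hG' s hs, ← h2 s hs, mul_inv_cancel_right₀ h3]

lemma fac_MChi {p : ℕ} (hp : p.Prime) {s : ℂ} (hs : 3 / 4 ≤ s.re) :
    1 - (2 : ℝ) ^ (-(3 / 4) : ℝ) ≤ ‖1 - (p : ℂ) ^ (-s)‖ := by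
  have h1 : ‖(p : ℂ) ^ (-s)‖ ≤ (2 : ℝ) ^ (-(3 / 4) : ℝ) := by
    have h2 : (2 : ℝ) ≤ p := by exact_mod_cast hp.two_le
    rw [Complex.norm_natCast_cpow_of_pos hp.pos, Complex.neg_re]
    exact (Real.rpow_le_rpow_of_exponent_le (by linarith) (neg_le_neg hs)).trans
      (Real.rpow_le_rpow_of_nonpos (by norm_num) h2 (by norm_num))
  have h2 := norm_sub_norm_le (1 : ℂ) ((p : ℂ) ^ (-s))
  rw [norm_one] at h2
  linarith

theorem mChi_stmt (hL : ZfLStmt) (hZ : ZfZStmt) (hT : TauStmt) (hS : SqStmt) : MChiStmt := by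
  intro q _ χ
  by_cases hχ : χ = 1
  · subst hχ
    obtain ⟨c, h0, hc, h⟩ := hZ
    have hδ : 0 < 1 - (2 : ℝ) ^ (-(3 / 4) : ℝ) :=
      sub_pos.2 (Real.rpow_lt_one_of_one_lt_of_neg (by norm_num) (by norm_num))
    have e : ∀ s : ℂ, s ≠ 1 → DirichletCharacter.LFunctionTrivChar₁ q s =
        (s - 1) * DirichletCharacter.LFunctionTrivChar q s := fun s hs =>
      Function.update_of_ne hs _ _
    have e' : ∀ s : ℂ, s ≠ 1 → (s - 1) / DirichletCharacter.LFunctionTrivChar₁ q s =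
        (DirichletCharacter.LFunctionTrivChar q s)⁻¹ := fun s hs => by
      rw [e s hs, div_mul_cancel_left₀ (sub_ne_zero.2 hs)]
    refine gen_MChi hT hS q 1 (fun s => (s - 1) / DirichletCharacter.LFunctionTrivChar₁ q s) c
      ((1 - (2 : ℝ) ^ (-(3 / 4) : ℝ))⁻¹ ^ q.primeFactors.card / c) h0 hc (by positivity)
      (fun T hT s hs hs' => ?_) fun s hs => e' s fun e => by simp [e] at hs
    have hd := DirichletCharacter.differentiable_LFunctionTrivChar₁ q s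
    by_cases h1 : s = 1
    · subst h1
      refine ⟨(differentiableAt_id.sub_const 1).div hd
        (DirichletCharacter.LFunctionTrivChar₁_apply_one_ne_zero q), ?_⟩
      rw [sub_self, zero_div, norm_zero]
      positivity
    obtain ⟨a1, a2⟩ := h T hT s h1 hs hs'
    have hp : ∀ p ∈ q.primeFactors, 1 - (2 : ℝ) ^ (-(3 / 4) : ℝ) ≤ ‖1 - (p : ℂ) ^ (-s)‖ :=
      fun p hp => fac_MChi (Nat.prime_of_mem_primeFactors hp) (re_MChi h0 hc hT hs)
    refine ⟨(differentiableAt_id.sub_const 1).div hd ?_, ?_⟩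
    · rw [e s h1, DirichletCharacter.LFunctionTrivChar_eq_mul_riemannZeta h1]
      exact mul_ne_zero (sub_ne_zero.2 h1) (mul_ne_zero (prod_ne_zero_iff.2 fun p hp' =>
        norm_pos_iff.1 (hδ.trans_le (hp p hp'))) a1)
    · rw [e' s h1, DirichletCharacter.LFunctionTrivChar_eq_mul_riemannZeta h1, mul_inv, norm_mul,
        ← prod_inv_distrib, norm_prod, div_mul_eq_mul_div, mul_div_assoc]
      refine mul_le_mul ?_ a2 (norm_nonneg _) (by positivity)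
      rw [← prod_const]
      refine prod_le_prod (fun _ _ => norm_nonneg _) fun p hp' => ?_
      rw [norm_inv]
      exact inv_anti₀ hδ (hp p hp')
  · obtain ⟨c, h0, hc, h⟩ := hL q χ hχ
    refine gen_MChi hT hS q χ (fun s => (DirichletCharacter.LFunction χ s)⁻¹) c (1 / c) h0 hc
      (by positivity) (fun T hT s hs hs' => ?_) fun _ _ => rfl
    obtain ⟨a1, a2⟩ := h T hT s hs hs'
    refine ⟨(DirichletCharacter.differentiable_LFunction hχ s).inv a1, ?_⟩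
    rwa [one_div_mul_eq_div]

end Pool.Agent.MP_4fffd4_nt.AN
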