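import Pool.Agent.MP_4fffd4_nt.AN.GStmts

/-!
The Dirichlet series of a twisted Liouville function times the L-function of the character is the
L-function of the square of the character at twice the argument.
-/

open Finset Filter
open scoped BigOperators ComplexConjugate Topology

noncomputable section

namespace Pool.Agent.MP_4fffd4_nt.AN

open Pool.Agent.MP_4fffd4_nt.SX

/-- The completely multiplicative summand of the twisted Liouville series. -/
def hom_Sq {q : ℕ} (χ : DirichletCharacter ℂ q) {s : ℂ} (hs : s ≠ 0) : ℕ →*₀ ℂ where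
  toFun n := (lam (n : ℤ) : ℂ) * dirichletSummandHom χ hs n
  map_zero' := by simp
  map_one' := by simp [lam_one]
  map_mul' m n := by
    rcases Nat.eq_zero_or_pos m with rfl | hm
    · simp
    rcases Nat.eq_zero_or_pos n with rfl | hn
    · simp
    rw [Nat.cast_mul, lam_mul (by exact_mod_cast hm) (by exact_mod_cast hn), map_mul]
    push_cast
    ring

theorem norm_lam_Sq (z : ℤ) : ‖(lam z : ℂ)‖ = 1 := by
  rcases lamZ_eq z with h | h <;> simp [lam, h]

theorem prod_Sq {q : ℕ} (χ : DirichletCharacter ℂ q) {s : ℂ} (hs : 1 < s.re) :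
    HasProd (fun p : Nat.Primes => (1 + χ p * (p : ℂ) ^ (-s))⁻¹)
      (LSeries (fun n : ℕ => χ n * (lam (n : ℤ) : ℂ)) s) := by
  have h0 : s ≠ 0 := Complex.ne_zero_of_one_lt_re hs
  have hsum : Summable fun n => ‖hom_Sq χ h0 n‖ := by
    refine (summable_dirichletSummand χ hs).congr fun n => ?_
    change _ = ‖(lam (n : ℤ) : ℂ) * dirichletSummandHom χ h0 n‖
    rw [norm_mul, norm_lam_Sq, one_mul]
  have h := EulerProduct.eulerProduct_completely_multiplicative_hasProd hsum
  convert h using 1
  · funext p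
    change _ = (1 - (lam ((p : ℕ) : ℤ) : ℂ) * (χ (p : ℕ) * ((p : ℕ) : ℂ) ^ (-s)))⁻¹
    rw [lam_prime p.prop]
    push_cast
    ring_nf
  · rw [LSeries]
    refine tsum_congr fun n => ?_
    change _ = (lam (n : ℤ) : ℂ) * (χ n * (n : ℂ) ^ (-s))
    rw [LSeries.term_of_ne_zero' h0, Complex.cpow_neg, div_eq_mul_inv]
    ring

theorem sq_stmt : SqStmt := by
  intro q _ χ
  refine ⟨fun s => DirichletCharacter.LFunction (χ ^ 2) (2 * s),
    ∑' n, ‖LSeries.term (fun n : ℕ => (χ ^ 2) n) (3 / 2) n‖, fun s hs => ⟨?_, ?_⟩, fun s hs => ?_⟩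
  · have h1 : 2 * s ≠ 1 := by
      intro h
      have := congrArg Complex.re h
      simp at this
      linarith
    exact (DirichletCharacter.differentiableAt_LFunction (χ ^ 2) (2 * s) (Or.inl h1)).comp s
      (by fun_prop)
  · have h1 : 1 < (2 * s).re := by simp; linarith
    have h2 : (1 : ℝ) < (3 / 2 : ℂ).re := by norm_num
    have h3 : (3 / 2 : ℂ).re ≤ (2 * s).re := by simp; norm_num; linarith
    beta_reduce
    rw [DirichletCharacter.LFunction_eq_LSeries _ h1, LSeries]
    exact tsum_of_norm_bounded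
      (DirichletCharacter.LSeriesSummable_of_one_lt_re (χ ^ 2) h2).norm.hasSum
      fun n => LSeries.norm_term_le_of_re_le_re _ h3 n
  · have h1 : 1 < (2 * s).re := by simp; linarith
    beta_reduce
    rw [DirichletCharacter.LFunction_eq_LSeries _ h1, DirichletCharacter.LFunction_eq_LSeries _ hs]
    refine ((prod_Sq χ hs).mul (DirichletCharacter.LSeries_eulerProduct_hasProd χ hs)).unique ?_
    convert DirichletCharacter.LSeries_eulerProduct_hasProd (χ ^ 2) h1 using 2 with p
    rw [← mul_inv, MulChar.pow_apply' χ two_ne_zero, show -(2 * s) = ((2 : ℕ) : ℂ) * (-s) by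
      push_cast; ring, Complex.cpow_nat_mul]
    congr 1
    ring

end Pool.Agent.MP_4fffd4_nt.AN
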