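import Pool.Agent.MP_4fffd4_nt.AN.GStmts
import Pool.Agent.MP_e23604_nt.P.STau

/-!
A Tauberian step with an exponential saving.
-/

open Finset Filter
open scoped BigOperators ComplexConjugate Topology

noncomputable section

namespace Pool.Agent.MP_4fffd4_nt.AN

open Pool.Agent.MP_4fffd4_nt.SX

theorem num_Tau {C K u x E X : ℝ} (hC : 0 < C) (hK : 0 ≤ K) (hu : 1 ≤ u) (hx : 0 < x)
    (hE : 0 < E) (hE1 : E ≤ 1) (hX : X ≤ E ^ 4) (h1 : u ^ 65 * E ≤ 1)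
    (h2 : C * (2 + 2 * K) ≤ u) :
    C * (x ^ 2 / (x * E ^ 2) * ((u ^ 32) ^ 2 / (E ^ 4)⁻¹ + K * u ^ 30 / ((E ^ 4)⁻¹) ^ 2 +
      K * u ^ 30 * X) + x * E ^ 2 * u ^ 32) ≤ x * E := by
  have hu0 : 0 < u := by linarith
  have a1 : u ^ 30 ≤ u ^ 64 := pow_le_pow_right₀ hu (by norm_num)
  have a2 : u ^ 32 ≤ u ^ 64 := pow_le_pow_right₀ hu (by norm_num)
  have a3 : E ^ 4 ≤ 1 := pow_le_one₀ hE.le hE1
  have a4 : K * u ^ 30 * X ≤ K * u ^ 64 * E ^ 4 := by
    calc K * u ^ 30 * X ≤ K * u ^ 30 * E ^ 4 := mul_le_mul_of_nonneg_left hX (by positivity)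
      _ ≤ _ := by gcongr
  have a5 : K * u ^ 30 / ((E ^ 4)⁻¹) ^ 2 ≤ K * u ^ 64 * E ^ 4 := by
    calc K * u ^ 30 / ((E ^ 4)⁻¹) ^ 2 = K * u ^ 30 * E ^ 4 * E ^ 4 := by field_simp
      _ ≤ K * u ^ 30 * E ^ 4 := mul_le_of_le_one_right (by positivity) a3
      _ ≤ _ := by gcongr
  have a6 : (u ^ 32) ^ 2 / (E ^ 4)⁻¹ = u ^ 64 * E ^ 4 := by field_simp
  calc _ ≤ C * (x ^ 2 / (x * E ^ 2) * (u ^ 64 * E ^ 4 + K * u ^ 64 * E ^ 4 +
        K * u ^ 64 * E ^ 4) + x * E ^ 2 * u ^ 64) := by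
        rw [a6]
        gcongr
    _ = x * E * (C * (2 + 2 * K) * (u ^ 64 * E)) := by
        field_simp
        ring
    _ ≤ x * E * (u * (u ^ 64 * E)) := by gcongr
    _ = x * E * (u ^ 65 * E) := by ring
    _ ≤ x * E := mul_le_of_le_one_right (by positivity) h1

theorem tau_stmt : TauStmt := by
  intro c K hc hc4 hK
  obtain ⟨C, hC, H⟩ := Pool.Agent.MP_e23604_nt.P.tauber
  have hT : Tendsto (fun x : ℝ => Real.log x ^ (1 / 32 : ℝ)) atTop atTop :=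
    (tendsto_rpow_atTop (by norm_num)).comp Real.tendsto_log_atTop
  have hT' : Tendsto (fun x : ℝ => Real.log x ^ (3 / 1120 : ℝ)) atTop atTop :=
    (tendsto_rpow_atTop (by norm_num)).comp Real.tendsto_log_atTop
  have hP : ∀ᶠ u : ℝ in atTop, u ^ 65 ≤ Real.exp (1 / 4 * u) := by
    have h := (isLittleO_pow_exp_pos_mul_atTop 65 (b := 1 / 4) (by norm_num)).bound (c := 1)
      one_pos
    filter_upwards [h, eventually_ge_atTop (0 : ℝ)] with u hu h0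
    rwa [Real.norm_of_nonneg (pow_nonneg h0 _), one_mul,
      Real.norm_of_nonneg (Real.exp_pos _).le] at hu
  filter_upwards [eventually_ge_atTop (3 : ℝ), hT.eventually hP, hT.eventually_ge_atTop 2,
    hT.eventually_ge_atTop (1 / c), hT.eventually_ge_atTop (C * (2 + 2 * K)),
    hT'.eventually_ge_atTop 4] with x h3 h4 h5 h6 h7 h8
  intro a F ha hF hL
  have hx0 : 0 < x := by linarith
  have hL0 : 0 < Real.log x := Real.log_pos (by linarith)
  have hw : 4 * Real.log x ^ (1 / 35 : ℝ) ≤ Real.log x ^ (1 / 32 : ℝ) := by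
    rw [show (1 / 32 : ℝ) = 3 / 1120 + 1 / 35 by norm_num, Real.rpow_add hL0]
    exact mul_le_mul_of_nonneg_right h8 (Real.rpow_nonneg hL0.le _)
  have hLu : Real.log x = (Real.log x ^ (1 / 32 : ℝ)) ^ 32 := by
    rw [← Real.rpow_natCast, ← Real.rpow_mul hL0.le]
    norm_num
  obtain ⟨u, hu⟩ : ∃ u : ℝ, u = Real.log x ^ (1 / 32 : ℝ) := ⟨_, rfl⟩
  rw [← hu] at h4 h5 h6 h7 hw hLu
  have hu1 : 1 ≤ u := by linarith
  have hu0 : 0 < u := by linarith
  have hcu : 1 ≤ c * u := by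
    rw [div_le_iff₀ hc] at h6
    linarith
  obtain ⟨E, hE⟩ : ∃ E : ℝ, E = Real.exp (-(1 / 4 * u)) := ⟨_, rfl⟩
  have hE0 : 0 < E := hE ▸ Real.exp_pos _
  have hE1 : E ≤ 1 := hE ▸ Real.exp_le_one_iff.2 (by linarith)
  have hE4 : E ^ 4 = Real.exp (-u) := by
    rw [hE, ← Real.exp_nat_mul]
    congr 1
    push_cast
    ring
  have hE2 : E ^ 2 = Real.exp (-(u / 2)) := by
    rw [hE, ← Real.exp_nat_mul]
    congr 1
    push_cast
    ring
  have hTe : (E ^ 4)⁻¹ = Real.exp u := by rw [hE4, Real.exp_neg, inv_inv]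
  have hT3 : 3 ≤ (E ^ 4)⁻¹ := by
    rw [hTe]
    linarith [Real.add_one_le_exp u]
  have hlT : Real.log (E ^ 4)⁻¹ = u := by rw [hTe, Real.log_exp]
  have hF' := hF _ hT3
  rw [hlT] at hF'
  have hmem : ∀ s ∈ Set.Icc (1 - c / u ^ 30) (1 + c / u ^ 30) ×ℂ
      Set.Icc (-(E ^ 4)⁻¹) (E ^ 4)⁻¹, DifferentiableAt ℂ F s ∧ ‖F s‖ ≤ K * u ^ 30 := by
    intro s hs
    rw [Complex.mem_reProdIm] at hs
    obtain ⟨⟨h1, h2⟩, h3, h4⟩ := hs
    exact hF' s (abs_le.2 ⟨by linarith, by linarith⟩) (abs_le.2 ⟨h3, h4⟩)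
  have p30 : 1 ≤ u ^ 30 := one_le_pow₀ hu1
  have key := H a F (c / u ^ 30) (E ^ 4)⁻¹ (K * u ^ 30) x (x * E ^ 2)
    (fun n => (ha n).trans (le_add_of_nonneg_right (Real.log_natCast_nonneg n))) h3
    (by
      rw [hE2, ← Real.exp_log hx0, ← Real.exp_add, hLu]
      refine Real.one_le_exp ?_
      have : u ^ 1 ≤ u ^ 32 := pow_le_pow_right₀ hu1 (by norm_num)
      rw [pow_one] at this
      linarith)
    (mul_le_of_le_one_right hx0.le (pow_le_one₀ hE0.le hE1)) (by linarith)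
    ((div_le_self hc.le p30).trans (by linarith))
    (by
      rw [hLu, div_le_div_iff₀ (by positivity) (by positivity)]
      have : 1 ≤ c * u * u := one_le_mul_of_one_le_of_one_le hcu hu1
      calc 1 * u ^ 30 ≤ c * u * u * u ^ 30 := by gcongr
        _ = c * u ^ 32 := by ring)
    (fun s hs => (hmem s hs).1.differentiableWithinAt) (fun s hs _ _ => hL s hs)
    fun s hs => (hmem s hs).2
  have hX : x ^ (-(c / u ^ 30)) ≤ E ^ 4 := by
    rw [Real.rpow_def_of_pos hx0, hE4, hLu]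
    refine Real.exp_le_exp.2 ?_
    have : u ^ 32 * -(c / u ^ 30) = -(c * u * u) := by field_simp
    rw [this]
    nlinarith
  have h1 : u ^ 65 * E ≤ 1 := by
    rw [hE, Real.exp_neg, ← div_eq_mul_inv, div_le_one (Real.exp_pos _)]
    exact h4
  have fin := num_Tau hC hK hu1 hx0 hE0 hE1 hX h1 h7
  rw [← hLu] at fin
  refine (key.trans fin).trans (mul_le_mul_of_nonneg_left ?_ hx0.le)
  rw [hE]
  exact Real.exp_le_exp.2 (by linarith)

end Pool.Agent.MP_4fffd4_nt.AN
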