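import Pool.Agent.MP_4fffd4_nt.AN.VStmts
import Pool.Agent.MP_e23604_nt.P.SGrow
open Finset Filter
open scoped BigOperators ComplexConjugate Topology
noncomputable section
namespace Pool.Agent.MP_4fffd4_nt.AN
open Pool.Agent.MP_4fffd4_nt.SX DirichletCharacter

theorem pow_VUL {A T x : ℝ} (hA : 1 ≤ A) (hT : 3 ≤ T) (hx : 0 ≤ x) (h : x ≤ A * T) :
    20 / (1 / (2 * Real.log T)) * x ^ (2 * (1 / (2 * Real.log T))) ≤ 120 * A * Real.log T := by
  have hl : 1 ≤ Real.log T := by
    rw [Real.le_log_iff_exp_le (by linarith)]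
    linarith [Real.exp_one_lt_three]
  have e : 2 * (1 / (2 * Real.log T)) = 1 / Real.log T := by field_simp
  have h1 : x ^ (1 / Real.log T) ≤ (A * T) ^ (1 / Real.log T) :=
    Real.rpow_le_rpow hx h (by positivity)
  have h2 : A ^ (1 / Real.log T) ≤ A := by
    refine (Real.rpow_le_rpow_of_exponent_le hA ((div_le_one (by linarith)).2 hl)).trans_eq ?_
    exact Real.rpow_one A
  have h3 : T ^ (1 / Real.log T) ≤ 3 := by
    rw [Real.rpow_def_of_pos (by linarith), mul_one_div_cancel (by linarith)]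
    exact Real.exp_one_lt_three.le
  rw [Real.mul_rpow (by linarith) (by linarith)] at h1
  have h4 : x ^ (1 / Real.log T) ≤ A * 3 :=
    h1.trans (mul_le_mul h2 h3 (by positivity) (by linarith))
  rw [e, show 20 / (1 / (2 * Real.log T)) = 40 * Real.log T by field_simp; norm_num]
  nlinarith

theorem vUp_all : VUpStmt := by
  intro q _ χ
  have hq : (0 : ℝ) ≤ q := by positivity
  have hd : (0 : ℝ) ≤ q.divisors.card := by positivity
  refine ⟨(q.divisors.card + 1) * (241 * (q + 1)), by nlinarith, fun s h1 h2 h3 => ?_⟩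
  rw [← LFunction_eq_LSeries χ h1]
  obtain ⟨T, hT⟩ : ∃ T : ℝ, T = |s.im| + 2 := ⟨_, rfl⟩
  rw [← hT]
  have hT3 : 3 ≤ T := by linarith
  have hl : 1 ≤ Real.log T := by
    rw [Real.le_log_iff_exp_le (by linarith)]
    linarith [Real.exp_one_lt_three]
  have h0 : 0 < 1 / (2 * Real.log T) := by positivity
  have h5 : 1 / (2 * Real.log T) ≤ 1 / 2 := one_div_le_one_div_of_le (by norm_num) (by linarith)
  have hs : ‖s‖ + 1 ≤ 2 * T := by
    have := Complex.norm_le_abs_re_add_abs_im s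
    rw [abs_of_pos (by linarith : 0 < s.re)] at this
    linarith
  by_cases hχ : χ = 1
  · have h4 : ‖1 / (s - 1)‖ ≤ 1 := by
      have h5 := Complex.abs_im_le_norm (s - 1)
      rw [Complex.sub_im, Complex.one_im, sub_zero] at h5
      rw [norm_div, norm_one]
      exact (div_le_one (by linarith)).2 (by linarith)
    have h6 : ‖MP_e23604_nt.P.zH s‖ ≤ 120 * 2 * Real.log T :=
      (MP_e23604_nt.P.zH_ub h0 h5 (by linarith)).trans
        (pow_VUL (by norm_num) hT3 (by positivity) hs)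
    have h7 : ‖riemannZeta s‖ ≤ 241 * Real.log T := by
      rw [MP_e23604_nt.P.zeta_eq fun h => by rw [h, Complex.one_re] at h1; linarith]
      refine (norm_add_le _ _).trans ((add_le_add h4 h6).trans ?_)
      linarith
    rw [hχ]
    refine (MP_e23604_nt.P.triv_ub' q h1).trans ((mul_le_mul_of_nonneg_left h7 hd).trans ?_)
    have := mul_nonneg hd hq
    nlinarith [mul_nonneg (mul_nonneg hd hq) (show 0 ≤ Real.log T by linarith)]
  · refine (MP_e23604_nt.P.L_ub hχ h0 h5 (by linarith)).trans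
      ((pow_VUL (A := 2 * (q + 1)) (by linarith) hT3 (by positivity) (by nlinarith)).trans ?_)
    have h8 : 0 ≤ (q + 1) * Real.log T := by positivity
    nlinarith [mul_nonneg hd h8]

theorem cpt_VUL (F : ℂ → ℂ) (hF : Continuous F) (h : ∀ s : ℂ, 1 ≤ s.re → F s ≠ 0) :
    ∃ c : ℝ, 0 < c ∧ ∀ s : ℂ, 1 < s.re → ‖s‖ ≤ 3 → c ≤ ‖F s‖ := by
  have hK : IsCompact ({s : ℂ | 1 ≤ s.re} ∩ Metric.closedBall 0 3) :=
    (isCompact_closedBall 0 3).inter_left (isClosed_le continuous_const Complex.continuous_re)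
  obtain ⟨z, hz, hm⟩ := hK.exists_isMinOn ⟨1, by simp, by simp⟩ hF.norm.continuousOn
  exact ⟨‖F z‖, norm_pos_iff.2 (h z hz.1), fun s h1 h2 =>
    hm ⟨h1.le, mem_closedBall_zero_iff.2 h2⟩⟩

theorem vLow_all : VLowStmt := by
  intro q _ χ
  have hn : ∀ s : ℂ, 1 < s.re → s.re ≤ 2 → |s.im| ≤ 1 → ‖s‖ ≤ 3 := fun s h1 h2 h3 => by
    have := Complex.norm_le_abs_re_add_abs_im s
    rw [abs_of_pos (by linarith : 0 < s.re)] at this
    linarith
  by_cases hχ : χ = 1
  · obtain ⟨c, hc, h⟩ := cpt_VUL (LFunctionTrivChar₁ q)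
      (differentiable_LFunctionTrivChar₁ q).continuous fun s hs => by
        by_cases h1 : s = 1
        · rw [h1]
          exact LFunctionTrivChar₁_apply_one_ne_zero q
        · rw [LFunctionTrivChar₁, Function.update_of_ne h1]
          exact mul_ne_zero (sub_ne_zero.2 h1) (LFunction_ne_zero_of_one_le_re 1 (Or.inr h1) hs)
    refine ⟨c / 4, by positivity, fun s h1 h2 h3 => ?_⟩
    have h4 : s ≠ 1 := fun h => by rw [h, Complex.one_re] at h1; linarith
    have h5 := h s h1 (hn s h1 h2 h3)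
    rw [LFunctionTrivChar₁, Function.update_of_ne h4, norm_mul] at h5
    have h6 : ‖s - 1‖ ≤ 4 := (norm_sub_le _ _).trans (by rw [norm_one]; linarith [hn s h1 h2 h3])
    rw [← LFunction_eq_LSeries χ h1, hχ, div_le_iff₀ (by norm_num), mul_comm]
    exact h5.trans (mul_le_mul_of_nonneg_right h6 (norm_nonneg _))
  · obtain ⟨c, hc, h⟩ := cpt_VUL (LFunction χ) (differentiable_LFunction hχ).continuous
      fun s hs => LFunction_ne_zero_of_one_le_re χ (Or.inl hχ) hs
    refine ⟨c, hc, fun s h1 h2 h3 => ?_⟩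
    rw [← LFunction_eq_LSeries χ h1]
    exact h s h1 (hn s h1 h2 h3)

end Pool.Agent.MP_4fffd4_nt.AN
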