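import Pool.Agent.MP_4fffd4_nt.AN.LAll
import Pool.Agent.MP_4fffd4_nt.AN.VAll
import Pool.Agent.MP_4fffd4_nt.AN.VAp
import Pool.Agent.MP_4fffd4_nt.AN.VBlock
import Pool.Agent.MP_4fffd4_nt.AN.VBt
import Pool.Agent.MP_4fffd4_nt.AN.VEul
import Pool.Agent.MP_4fffd4_nt.AN.VLipTk
import Pool.Agent.MP_4fffd4_nt.AN.VPret
import Pool.Agent.MP_4fffd4_nt.AN.VRange
import Pool.Agent.MP_4fffd4_nt.AN.VSm
import Pool.Agent.MP_4fffd4_nt.AN.VSpec
import Pool.Agent.MP_4fffd4_nt.AN.VTail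
import Pool.Agent.MP_4fffd4_nt.AN.VUL
import Pool.Agent.MP_4fffd4_nt.AN.VWin

/-!
Local uniformity of the Liouville function in all windows of relative length
exp (- (log x) ^ a), a < 1, in every degree.
-/

namespace Pool.Agent.MP_4fffd4_nt.AN

open Pool.Agent.MP_4fffd4_nt.SX

theorem vWin_all : VWinStmt :=
  have hZ := vZet_stmt vEul_stmt
  have hM := vMer_stmt hZ
  vWin_stmt (vRange_stmt vLip_stmt vTk_stmt vSpec_stmt)
    (vPret_stmt (vSm_stmt vEul_stmt vUp_all vLow_all hZ) vTail_stmt hM) hM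
    (vAll_stmt vLip_stmt vTk_stmt (vCh_stmt cheb_stmt) (vBlock_stmt (vBt_stmt sieveW_stmt)))

theorem luAll : ∀ a : ℝ, 0 < a → a < 1 → LU 1 a := vLu_stmt (vAp_stmt vWin_all)

theorem guAll (s : ℕ) (hs : 1 ≤ s) (b : ℝ) (h0 : 0 < b) (h1 : b < 1) : GU (s + 1) b :=
  gu_gen le_rfl luAll s hs b h0 h1

end Pool.Agent.MP_4fffd4_nt.AN
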