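import Pool.Agent.MP_4fffd4_nt.AN.VStmts

open Finset Filter
open scoped BigOperators ComplexConjugate Topology

noncomputable section

namespace Pool.Agent.MP_4fffd4_nt.AN

open Pool.Agent.MP_4fffd4_nt.SX

lemma step_VTail {δ x : ℝ} (hδ : 0 < δ) (hx : 0 < x) :
    δ * (x + 1) ^ (-(1 + δ)) ≤ x ^ (-δ) - (x + 1) ^ (-δ) := by
  have hx1 : 0 < x + 1 := by linarith
  have h1 : x ^ (-δ) = (x + 1) ^ (-δ) * Real.exp (δ * Real.log ((x + 1) / x)) := by
    rw [Real.rpow_def_of_pos hx, Real.rpow_def_of_pos hx1, ← Real.exp_add,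
      Real.log_div hx1.ne' hx.ne']
    congr 1
    ring
  have h2 : 1 / (x + 1) ≤ Real.log ((x + 1) / x) := by
    refine le_trans (le_of_eq ?_) (Real.one_sub_inv_le_log_of_pos (div_pos hx1 hx))
    field_simp
    ring
  have h3 := Real.add_one_le_exp (δ * Real.log ((x + 1) / x))
  have h4 : (x + 1) ^ (-(1 + δ)) = (x + 1) ^ (-δ) * (1 / (x + 1)) := by
    rw [show -(1 + δ) = -δ + -1 by ring, Real.rpow_add hx1, Real.rpow_neg_one, one_div]
  have h5 : 0 ≤ (x + 1) ^ (-δ) := Real.rpow_nonneg hx1.le _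
  have h6 := mul_le_mul_of_nonneg_left h2 hδ.le
  have h7 := mul_le_mul_of_nonneg_left (show δ * (1 / (x + 1)) + 1 ≤ _ from
    le_trans (by linarith) h3) h5
  rw [h1, h4]
  linarith

lemma tail_VTail {δ : ℝ} (hδ : 0 < δ) {n N : ℕ} (hn : 1 ≤ n) (hN : n ≤ N) :
    δ * ∑ k ∈ Ioc n N, (k : ℝ) ^ (-(1 + δ)) ≤ (n : ℝ) ^ (-δ) - (N : ℝ) ^ (-δ) := by
  induction N, hN using Nat.le_induction with
  | base => simp
  | succ N hN ih =>
    have h0 : (0 : ℝ) < N := by exact_mod_cast (show 0 < N by omega)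
    have h := step_VTail hδ h0
    rw [Finset.sum_Ioc_succ_top hN, mul_add]
    push_cast
    linarith

lemma mem_pio_VTail {P : ℝ} {p : ℕ} : p ∈ pio 0 P ↔ p.Prime ∧ p ≤ ⌊P⌋₊ := by
  simp only [pio, mem_filter, mem_Ioc, Nat.floor_zero]
  exact ⟨fun h => ⟨h.2, h.1.2⟩, fun h => ⟨⟨h.1.pos, h.2⟩, h.1⟩⟩

/-- The inclusion of the primes. -/
def emb_VTail : Nat.Primes ↪ ℕ := ⟨fun p => (p : ℕ), fun _ _ h => Subtype.ext h⟩

lemma sum_emb_VTail (s : Finset Nat.Primes) (g : ℕ → ℝ) :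
    ∑ p ∈ s, g (p : ℕ) = ∑ n ∈ s.map emb_VTail, g n := by
  rw [Finset.sum_map]
  rfl

theorem vTail_stmt : VTailStmt := by
  intro δ P a hδ hδ1 hP ha
  have hg : ∀ n : ℕ, 0 ≤ a n * (n : ℝ) ^ (-(1 + δ)) := fun n =>
    mul_nonneg (ha n).1 (Real.rpow_nonneg (Nat.cast_nonneg _) _)
  refine Real.tsum_le_of_sum_le (fun p => hg p) fun s => ?_
  have hn : 1 ≤ ⌊P⌋₊ := Nat.le_floor (by push_cast; linarith)
  set N := max ⌊P⌋₊ ((s.map emb_VTail).sup id) with hN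
  have hsub : s.map emb_VTail ⊆ pio 0 P ∪ Ioc ⌊P⌋₊ N := by
    intro n hn'
    have h1 : n ≤ N := le_trans (Finset.le_sup (f := id) hn') (le_max_right _ _)
    obtain ⟨p, -, rfl⟩ := Finset.mem_map.1 hn'
    rcases le_or_gt (emb_VTail p) ⌊P⌋₊ with h | h
    · exact mem_union_left _ (mem_pio_VTail.2 ⟨p.2, h⟩)
    · exact mem_union_right _ (mem_Ioc.2 ⟨h, h1⟩)
  have h1 : ∑ n ∈ pio 0 P, a n * (n : ℝ) ^ (-(1 + δ)) ≤ ∑ p ∈ pio 0 P, a p / p := by
    refine sum_le_sum fun p hp => ?_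
    have h2 : (1 : ℝ) ≤ p := by exact_mod_cast (mem_pio_VTail.1 hp).1.pos
    rw [div_eq_mul_inv, ← Real.rpow_neg_one]
    exact mul_le_mul_of_nonneg_left (Real.rpow_le_rpow_of_exponent_le h2 (by linarith)) (ha p).1
  have h2 : ∑ n ∈ Ioc ⌊P⌋₊ N, a n * (n : ℝ) ^ (-(1 + δ)) ≤
      2 * ∑ n ∈ Ioc ⌊P⌋₊ N, (n : ℝ) ^ (-(1 + δ)) := by
    rw [mul_sum]
    exact sum_le_sum fun n _ =>
      mul_le_mul_of_nonneg_right (ha n).2 (Real.rpow_nonneg (Nat.cast_nonneg _) _)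
  have h3 := tail_VTail hδ hn (show ⌊P⌋₊ ≤ N from le_max_left _ _)
  have h4 : 0 ≤ (N : ℝ) ^ (-δ) := Real.rpow_nonneg (Nat.cast_nonneg _) _
  have h5 : (⌊P⌋₊ : ℝ) ^ (-δ) ≤ 2 * P ^ (-δ) := by
    have h6 : P / 2 ≤ (⌊P⌋₊ : ℝ) := by linarith [Nat.lt_floor_add_one P]
    have h7 : (⌊P⌋₊ : ℝ) ^ (-δ) ≤ (P / 2) ^ (-δ) :=
      Real.rpow_le_rpow_of_nonpos (by linarith) h6 (by linarith)
    have h8 : (P / 2) ^ (-δ) = (2 : ℝ) ^ δ * P ^ (-δ) := by
      rw [Real.div_rpow (by linarith) (by norm_num), Real.rpow_neg (show (0 : ℝ) ≤ 2 by norm_num),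
        div_inv_eq_mul, mul_comm]
    have h9 : (2 : ℝ) ^ δ ≤ 2 := by
      simpa using Real.rpow_le_rpow_of_exponent_le (show (1 : ℝ) ≤ 2 by norm_num) hδ1
    rw [h8] at h7
    exact h7.trans (mul_le_mul_of_nonneg_right h9 (Real.rpow_nonneg (by linarith) _))
  have h6 : 2 * ∑ n ∈ Ioc ⌊P⌋₊ N, (n : ℝ) ^ (-(1 + δ)) ≤ 4 * P ^ (-δ) / δ := by
    rw [le_div_iff₀ hδ]
    linarith
  rw [sum_emb_VTail s fun n => a n * (n : ℝ) ^ (-(1 + δ))]
  refine le_trans (sum_le_sum_of_subset_of_nonneg hsub fun n _ _ => hg n) ?_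
  have h7 := Finset.sum_union_inter (s₁ := pio 0 P) (s₂ := Ioc ⌊P⌋₊ N)
    (f := fun n => a n * (n : ℝ) ^ (-(1 + δ)))
  have h8 : 0 ≤ ∑ n ∈ pio 0 P ∩ Ioc ⌊P⌋₊ N, a n * (n : ℝ) ^ (-(1 + δ)) :=
    sum_nonneg fun n _ => hg n
  linarith

theorem vMer_stmt (h : VZetStmt) : VMerStmt := by
  have hnn : ∀ n : ℕ, (0 : ℝ) ≤ 1 / n := fun n => by positivity
  constructor
  · refine tendsto_atTop_atTop_of_monotone (fun P Q hPQ => ?_) fun b => ?_
    · refine sum_le_sum_of_subset_of_nonneg (fun p hp => ?_) fun n _ _ => hnn n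
      rw [mem_pio_VTail] at hp ⊢
      exact ⟨hp.1, hp.2.trans (Nat.floor_le_floor hPQ)⟩
    · by_contra hb
      push Not at hb
      refine Nat.Primes.not_summable_one_div (summable_of_sum_le (c := b) (fun p => hnn p) ?_)
      intro s
      rw [sum_emb_VTail s fun n => (1 : ℝ) / n]
      refine le_trans (sum_le_sum_of_subset_of_nonneg (fun n hn => ?_) fun n _ _ => hnn n)
        (hb (((s.map emb_VTail).sup id : ℕ) : ℝ)).le
      have h1 : n ≤ (s.map emb_VTail).sup id := Finset.le_sup (f := id) hn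
      obtain ⟨p, -, rfl⟩ := Finset.mem_map.1 hn
      exact mem_pio_VTail.2 ⟨p.2, by rwa [Nat.floor_natCast]⟩
  · have t1 := Real.tendsto_log_atTop.eventually_ge_atTop 1
    have t2 := (Real.tendsto_log_atTop.comp Real.tendsto_log_atTop).eventually_ge_atTop 9
    filter_upwards [t1, t2, eventually_gt_atTop 0] with P h1 h2 hP
    have h2' : 9 ≤ Real.log (Real.log P) := h2
    have hL : 0 < Real.log P := by linarith
    obtain ⟨hs, -, hu⟩ := h (1 / Real.log P) (by positivity) (by rwa [div_le_one hL])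
    rw [one_div_one_div] at hu
    set δ := 1 / Real.log P with hδ
    let s : Finset Nat.Primes := (pio 0 P).preimage emb_VTail emb_VTail.injective.injOn
    have hs' : s.map emb_VTail = pio 0 P := by
      ext n
      simp only [s, Finset.mem_map, Finset.mem_preimage]
      exact ⟨fun ⟨p, hp, e⟩ => e ▸ hp, fun hn => ⟨⟨n, (mem_pio_VTail.1 hn).1⟩, hn, rfl⟩⟩
    have h3 : ∑ p ∈ s, ((p : ℕ) : ℝ) ^ (-(1 + δ)) ≤ _ :=
      hs.sum_le_tsum s fun p _ => Real.rpow_nonneg (Nat.cast_nonneg _) _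
    rw [sum_emb_VTail s fun n => (n : ℝ) ^ (-(1 + δ)), hs'] at h3
    have h4 : Lr (pio 0 P) ≤ 3 * ∑ n ∈ pio 0 P, (n : ℝ) ^ (-(1 + δ)) := by
      rw [Lr, mul_sum]
      refine sum_le_sum fun p hp => ?_
      obtain ⟨hp1, hp2⟩ := mem_pio_VTail.1 hp
      have h5 : (0 : ℝ) < p := by exact_mod_cast hp1.pos
      have h6 : (p : ℝ) ≤ P := le_trans (by exact_mod_cast hp2) (Nat.floor_le hP.le)
      have h7 : (p : ℝ) ^ δ ≤ 3 := by
        refine le_trans (Real.rpow_le_rpow h5.le h6 (by positivity)) ?_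
        rw [Real.rpow_def_of_pos hP, hδ, mul_one_div_cancel hL.ne']
        exact Real.exp_one_lt_three.le
      have h8 : (1 : ℝ) / p = (p : ℝ) ^ δ * (p : ℝ) ^ (-(1 + δ)) := by
        rw [← Real.rpow_add h5, show δ + -(1 + δ) = -1 by ring, Real.rpow_neg_one, one_div]
      rw [h8]
      exact mul_le_mul_of_nonneg_right h7 (Real.rpow_nonneg h5.le _)
    linarith

end Pool.Agent.MP_4fffd4_nt.AN
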