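import Pool.Agent.MP_4fffd4_nt.AN.VStmts
import Pool.Agent.MP_e23604_nt.P.SGrow
open Finset Filter
open scoped BigOperators ComplexConjugate Topology
noncomputable section
namespace Pool.Agent.MP_4fffd4_nt.AN
open Pool.Agent.MP_4fffd4_nt.SX

theorem log_ge_VUpLow {T : ℝ} (hT : 3 ≤ T) : 1 ≤ Real.log T := by
  rw [Real.le_log_iff_exp_le (by linarith)]
  linarith [Real.exp_one_lt_three]

theorem pow_VUpLow {A T x : ℝ} (hA : 1 ≤ A) (hT : 3 ≤ T) (hx : 0 ≤ x) (h : x ≤ A * T) :
    20 / (1 / (2 * Real.log T)) * x ^ (2 * (1 / (2 * Real.log T))) ≤ 120 * A * Real.log T := by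
  have hl := log_ge_VUpLow hT
  have e : 2 * (1 / (2 * Real.log T)) = 1 / Real.log T := by field_simp
  rw [e]
  have h0 : 0 ≤ 1 / Real.log T := by positivity
  have h1 : A ^ (1 / Real.log T) ≤ A := by
    calc A ^ (1 / Real.log T) ≤ A ^ (1 : ℝ) :=
          Real.rpow_le_rpow_of_exponent_le hA ((div_le_one (by linarith)).2 hl)
      _ = A := Real.rpow_one _
  have h2 : T ^ (1 / Real.log T) ≤ 3 := by
    rw [Real.rpow_def_of_pos (by linarith), mul_one_div_cancel (by linarith)]
    exact Real.exp_one_lt_three.le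
  have h3 : x ^ (1 / Real.log T) ≤ A * 3 := by
    refine (Real.rpow_le_rpow hx h h0).trans ?_
    rw [Real.mul_rpow (by linarith) (by linarith)]
    exact mul_le_mul h1 h2 (by positivity) (by linarith)
  refine (mul_le_mul_of_nonneg_left h3 (by positivity)).trans_eq ?_
  field_simp
  norm_num

theorem vUp_stmt : VUpStmt := by
  intro q _ χ
  have hq : (0 : ℝ) ≤ q := by positivity
  obtain ⟨d, hd⟩ : ∃ d : ℝ, d = (q.divisors.card : ℝ) := ⟨_, rfl⟩
  have hd0 : 0 ≤ d := by rw [hd]; positivity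
  refine ⟨241 * (d + 1) * (q + 1), by nlinarith, fun s h1 h2 h3 => ?_⟩
  have hT : 3 ≤ |s.im| + 2 := by linarith
  have hl := log_ge_VUpLow hT
  have hs : ‖s‖ + 1 ≤ 2 * (|s.im| + 2) := by
    have := Complex.norm_le_abs_re_add_abs_im s
    rw [abs_of_pos (by linarith : 0 < s.re)] at this
    linarith
  have e0 : 0 < 1 / (2 * Real.log (|s.im| + 2)) := by positivity
  have e1 : 1 / (2 * Real.log (|s.im| + 2)) ≤ 1 / 2 :=
    one_div_le_one_div_of_le (by norm_num) (by linarith)
  rw [← DirichletCharacter.LFunction_eq_LSeries χ h1]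
  by_cases hχ : χ = 1
  · have h4 : ‖1 / (s - 1)‖ ≤ 1 := by
      have h5 := Complex.abs_im_le_norm (s - 1)
      rw [Complex.sub_im, Complex.one_im, sub_zero] at h5
      rw [norm_div, norm_one]
      exact (div_le_one (by linarith)).2 (by linarith)
    have h5 := (MP_e23604_nt.P.zH_ub e0 e1 (s := s) (by linarith)).trans
      (pow_VUpLow one_le_two hT (by positivity) hs)
    have h6 : ‖riemannZeta s‖ ≤ 241 * Real.log (|s.im| + 2) := by
      rw [MP_e23604_nt.P.zeta_eq fun h => by rw [h, Complex.one_re] at h1; linarith]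
      exact (norm_add_le _ _).trans ((add_le_add h4 h5).trans (by linarith))
    rw [hχ]
    refine (MP_e23604_nt.P.triv_ub' q h1).trans ?_
    rw [← hd]
    refine (mul_le_mul_of_nonneg_left h6 hd0).trans ?_
    rw [← mul_assoc]
    exact mul_le_mul_of_nonneg_right (by nlinarith) (by linarith)
  · refine (MP_e23604_nt.P.L_ub hχ e0 e1 (by linarith)).trans
      ((pow_VUpLow (A := (q + 1) * 2) (by linarith) hT (by positivity) ?_).trans ?_)
    · rw [mul_assoc]
      exact mul_le_mul_of_nonneg_left hs (by linarith)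
    · exact mul_le_mul_of_nonneg_right (by nlinarith) (by linarith)

theorem min_VUpLow {f : ℂ → ℂ} (hf : Continuous f) (h : ∀ s : ℂ, 1 ≤ s.re → f s ≠ 0) :
    ∃ c : ℝ, 0 < c ∧ ∀ s : ℂ, 1 < s.re → s.re ≤ 2 → |s.im| ≤ 1 → c ≤ ‖f s‖ := by
  have hK : IsCompact (Set.Icc (1 : ℝ) 2 ×ℂ Set.Icc (-1 : ℝ) 1) :=
    isCompact_Icc.reProdIm isCompact_Icc
  obtain ⟨z, hz, hm⟩ := hK.exists_isMinOn ⟨1, by simp [Complex.mem_reProdIm]⟩
    hf.norm.continuousOn
  exact ⟨_, norm_pos_iff.2 (h z hz.1.1), fun s h1 h2 h3 => hm ⟨⟨h1.le, h2⟩, abs_le.1 h3⟩⟩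

theorem vLow_stmt : VLowStmt := by
  intro q _ χ
  by_cases hχ : χ = 1
  · have e : ∀ s : ℂ, s ≠ 1 → DirichletCharacter.LFunctionTrivChar₁ q s =
        (s - 1) * DirichletCharacter.LFunction χ s := fun s hs => by
      rw [hχ]
      exact Function.update_of_ne hs _ _
    obtain ⟨c, hc, h⟩ := min_VUpLow
      (DirichletCharacter.differentiable_LFunctionTrivChar₁ q).continuous fun s hs => by
        rcases eq_or_ne s 1 with rfl | h1
        · exact DirichletCharacter.LFunctionTrivChar₁_apply_one_ne_zero q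
        · rw [e s h1]
          exact mul_ne_zero (sub_ne_zero.2 h1)
            (DirichletCharacter.LFunction_ne_zero_of_one_le_re χ (Or.inr h1) hs)
    refine ⟨c / 2, by positivity, fun s h1 h2 h3 => ?_⟩
    have h4 := h s h1 h2 h3
    rw [e s fun h => by rw [h, Complex.one_re] at h1; linarith, norm_mul,
      DirichletCharacter.LFunction_eq_LSeries χ h1] at h4
    have h5 : ‖s - 1‖ ≤ 2 := by
      have := Complex.norm_le_abs_re_add_abs_im (s - 1)
      rw [Complex.sub_im, Complex.one_im, sub_zero, Complex.sub_re, Complex.one_re,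
        abs_of_pos (by linarith : 0 < s.re - 1)] at this
      linarith
    rw [div_le_iff₀' two_pos]
    exact h4.trans (mul_le_mul_of_nonneg_right h5 (norm_nonneg _))
  · obtain ⟨c, hc, h⟩ := min_VUpLow (DirichletCharacter.differentiable_LFunction hχ).continuous
      fun s hs => DirichletCharacter.LFunction_ne_zero_of_one_le_re χ (Or.inl hχ) hs
    exact ⟨c, hc, fun s h1 h2 h3 => DirichletCharacter.LFunction_eq_LSeries χ h1 ▸ h s h1 h2 h3⟩

end Pool.Agent.MP_4fffd4_nt.AN
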