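import Pool.Agent.MP_4fffd4_nt.AN.GStmts
import Pool.Agent.MP_e23604_nt.P.SZfL

/-!
A zero free region with a bound of the reciprocal for a fixed Dirichlet L-function.
-/

open Finset Filter
open scoped BigOperators ComplexConjugate Topology

noncomputable section

namespace Pool.Agent.MP_4fffd4_nt.AN

open Pool.Agent.MP_4fffd4_nt.SX

theorem log_ge_ZfL {T : ℝ} (hT : 3 ≤ T) : 1 ≤ Real.log T := by
  rw [Real.le_log_iff_exp_le (by linarith)]
  linarith [Real.exp_one_lt_three]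

theorem pow_ZfL {A T x : ℝ} (hA : 1 ≤ A) (hT : 3 ≤ T) (hx : 0 ≤ x) (h : x ≤ A * T) :
    x ^ (2 * (1 / (2 * Real.log T))) ≤ 3 * A := by
  have hl := log_ge_ZfL hT
  have e : 2 * (1 / (2 * Real.log T)) = 1 / Real.log T := by field_simp
  rw [e]
  have h0 : 0 ≤ 1 / Real.log T := by positivity
  refine (Real.rpow_le_rpow hx h h0).trans ?_
  rw [Real.mul_rpow (by linarith) (by linarith)]
  have h1 : A ^ (1 / Real.log T) ≤ A := by
    calc A ^ (1 / Real.log T) ≤ A ^ (1 : ℝ) :=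
          Real.rpow_le_rpow_of_exponent_le hA ((div_le_one (by linarith)).2 hl)
      _ = A := Real.rpow_one _
  have h2 : T ^ (1 / Real.log T) ≤ 3 := by
    rw [Real.rpow_def_of_pos (by linarith), mul_one_div_cancel (by linarith)]
    exact Real.exp_one_lt_three.le
  calc _ ≤ A * 3 := mul_le_mul h1 h2 (by positivity) (by linarith)
    _ = 3 * A := mul_comm _ _

theorem high_ZfL (q : ℕ) [NeZero q] (χ : DirichletCharacter ℂ q) (hχ : χ ≠ 1) :
    ∃ c : ℝ, 0 < c ∧ c ≤ 1 / 4 ∧ ∀ T : ℝ, 3 ≤ T → ∀ s : ℂ, |s.re - 1| ≤ c / Real.log T ^ 9 →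
      |s.im| ≤ T → 1 ≤ |s.im| → c / Real.log T ^ 9 ≤ ‖DirichletCharacter.LFunction χ s‖ := by
  obtain ⟨A, hA⟩ : ∃ A : ℝ, A = 6 * (q + 1) := ⟨_, rfl⟩
  have hq : (0 : ℝ) ≤ q := by positivity
  have hA1 : 6 ≤ A := by rw [hA]; linarith
  obtain ⟨d, hd⟩ : ∃ d : ℝ, d = (q.divisors.card : ℝ) := ⟨_, rfl⟩
  have hd0 : 0 ≤ d := by rw [hd]; positivity
  obtain ⟨D, hD⟩ : ∃ D : ℝ, D = 480 * A := ⟨_, rfl⟩
  have hD1 : 1 ≤ D := by rw [hD]; linarith
  obtain ⟨M, hM⟩ : ∃ M : ℝ, M = (d + 1) * (121 * A) := ⟨_, rfl⟩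
  have hM1 : 121 * A ≤ M := by rw [hM]; nlinarith
  have hM2 : 1 ≤ M := by linarith
  have hD4 : 1 ≤ D ^ 4 := one_le_pow₀ hD1
  have hc4 : 1 / (2048 * D ^ 4 * M) ≤ 1 / 4 :=
    one_div_le_one_div_of_le (by norm_num) (by nlinarith)
  refine ⟨1 / (2048 * D ^ 4 * M), by positivity, hc4, fun T hT s hs hsT hs1 => ?_⟩
  have hl := log_ge_ZfL hT
  have hp : ∀ x : ℝ, 0 ≤ x → x ≤ A * T → x ^ (2 * (1 / (2 * Real.log T))) ≤ 3 * A :=
    fun x hx h => pow_ZfL (by linarith) hT hx h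
  generalize Real.log T = l at *
  have hl0 : 0 < l := by linarith
  obtain ⟨ε, hε⟩ : ∃ ε : ℝ, ε = 1 / (2 * l) := ⟨_, rfl⟩
  rw [← hε] at hp
  have h0 : 0 < ε := by rw [hε]; positivity
  have h1 : ε ≤ 1 / 2 := by
    rw [hε]
    exact one_div_le_one_div_of_le (by norm_num) (by linarith)
  obtain ⟨r, hr⟩ : ∃ r : ℝ, r = 1 / (2048 * D ^ 4 * M) / l ^ 9 := ⟨_, rfl⟩
  rw [← hr] at hs ⊢
  have hr0 : 0 < r := by rw [hr]; positivity
  have hrε : r ≤ ε / 2 := by
    have h2 : l ≤ l ^ 9 := le_self_pow₀ hl (by norm_num)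
    calc r ≤ 1 / 4 / l := by
          rw [hr]
          exact div_le_div₀ (by norm_num) hc4 hl0 h2
      _ = ε / 2 := by rw [hε]; field_simp; norm_num
  have hr1 : r ≤ 1 := by linarith
  have hder : ∀ z : ℂ, 1 - ε / 2 ≤ z.re → ‖z‖ ≤ 4 * T →
      ‖deriv (DirichletCharacter.LFunction χ) z‖ ≤ D * l ^ 2 := by
    intro z hz hz'
    refine (MP_e23604_nt.P.L_deriv_ub hχ h0 h1 hz).trans ((mul_le_mul_of_nonneg_left
      (hp _ (by positivity) ?_) (by positivity)).trans_eq ?_)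
    · rw [hA]
      nlinarith [mul_le_mul_of_nonneg_left (show ‖z‖ + 2 ≤ 6 * T by linarith)
        (show (0 : ℝ) ≤ q + 1 by linarith)]
    · rw [hε, hD]
      field_simp
      norm_num
  have hn : ∀ y : ℝ, ‖(1 + r + Complex.I * y : ℂ)‖ ≤ 2 + |y| := fun y => by
    refine (Complex.norm_le_abs_re_add_abs_im _).trans ?_
    simp only [Complex.add_re, Complex.one_re, Complex.ofReal_re, Complex.I_mul_re,
      Complex.ofReal_im, neg_zero, add_zero, Complex.add_im, Complex.one_im, Complex.I_mul_im,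
      zero_add]
    rw [abs_of_pos (by linarith)]
    linarith
  obtain ⟨t, ht⟩ : ∃ t : ℝ, t = s.im := ⟨_, rfl⟩
  rw [← ht] at hsT hs1
  have hb : ∀ x : ℝ, 0 ≤ x → x ≤ A * T → 20 / ε * x ^ (2 * ε) ≤ 120 * A * l := fun x hx h =>
    (mul_le_mul_of_nonneg_left (hp x hx h) (by positivity)).trans_eq (by
      rw [hε]
      field_simp
      norm_num)
  have hMb : ‖DirichletCharacter.LFunction (χ ^ 2) (1 + r + 2 * Complex.I * t)‖ ≤ M * l := by
    obtain ⟨z, hz⟩ : ∃ z : ℂ, z = 1 + r + 2 * Complex.I * t := ⟨_, rfl⟩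
    rw [← hz]
    have hz1 : z.re = 1 + r := by simp [hz]
    have hz2 : z.im = 2 * t := by simp [hz]
    have hz3 : ‖z‖ ≤ 4 * T := by
      have h3 := hn (2 * t)
      rw [abs_mul, abs_two, show (1 + r + Complex.I * ((2 * t : ℝ) : ℂ) : ℂ) = z by
        rw [hz]; push_cast; ring] at h3
      linarith
    by_cases h2 : χ ^ 2 = 1
    · have h4 : ‖1 / (z - 1)‖ ≤ 1 := by
        have h5 := Complex.abs_im_le_norm (z - 1)
        rw [Complex.sub_im, Complex.one_im, sub_zero, hz2, abs_mul, abs_two] at h5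
        rw [norm_div, norm_one]
        exact (div_le_one (by linarith)).2 (by linarith)
      have h5 : ‖MP_e23604_nt.P.zH z‖ ≤ 120 * A * l :=
        (MP_e23604_nt.P.zH_ub h0 h1 (by linarith)).trans (hb _ (by positivity) (by nlinarith))
      have h6 : ‖riemannZeta z‖ ≤ 121 * A * l := by
        rw [MP_e23604_nt.P.zeta_eq fun h => by rw [h, Complex.one_re] at hz1; linarith]
        refine (norm_add_le _ _).trans ((add_le_add h4 h5).trans ?_)
        nlinarith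
      rw [h2]
      refine (MP_e23604_nt.P.triv_ub' q (by linarith)).trans ?_
      rw [← hd, hM]
      have h7 := mul_le_mul_of_nonneg_left h6 hd0
      have h8 : 0 ≤ 121 * A * l := by positivity
      nlinarith
    · refine (MP_e23604_nt.P.L_ub h2 h0 h1 (by linarith)).trans
        ((hb _ (by positivity) ?_).trans ?_)
      · rw [hA]
        nlinarith [mul_le_mul_of_nonneg_left (show ‖z‖ + 1 ≤ 6 * T by linarith)
          (show (0 : ℝ) ≤ q + 1 by linarith)]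
      · exact mul_le_mul_of_nonneg_right (by linarith) hl0.le
  have hlow : 4 * r * (D * l ^ 2) ≤ ‖DirichletCharacter.LFunction χ (1 + r + Complex.I * t)‖ := by
    refine MP_e23604_nt.P.xSZfL_prod χ hr0 hr1 hMb (le_of_eq ?_)
    rw [hr]
    field_simp
  obtain ⟨hs2, hs3⟩ := abs_le.1 hs
  have h4 := Convex.norm_image_sub_le_of_norm_deriv_le (𝕜 := ℂ)
    (f := DirichletCharacter.LFunction χ)
    (s := {z : ℂ | 1 - ε / 2 ≤ z.re} ∩ Metric.closedBall 0 (4 * T)) (x := s)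
    (y := 1 + r + Complex.I * t) (fun x _ => DirichletCharacter.differentiable_LFunction hχ x)
    (fun x hx => hder x hx.1 (mem_closedBall_zero_iff.1 hx.2))
    ((convex_halfSpace_re_ge _).inter (convex_closedBall _ _))
    ⟨by simp only [Set.mem_ofPred_eq]; linarith, mem_closedBall_zero_iff.2 (by
      refine (Complex.norm_le_abs_re_add_abs_im _).trans ?_
      have h9 : |s.re| ≤ 2 := abs_le.2 ⟨by linarith, by linarith⟩
      rw [← ht]
      linarith)⟩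
    ⟨by simp; linarith, mem_closedBall_zero_iff.2 ((hn t).trans (by linarith))⟩
  have h5 : ‖(1 + r + Complex.I * t : ℂ) - s‖ ≤ 2 * r := by
    refine (Complex.norm_le_abs_re_add_abs_im _).trans ?_
    have e1 : ((1 + r + Complex.I * t : ℂ) - s).re = 1 + r - s.re := by simp
    have e2 : ((1 + r + Complex.I * t : ℂ) - s).im = 0 := by simp [ht]
    rw [e1, e2, abs_zero, add_zero]
    exact abs_le.2 ⟨by linarith, by linarith⟩
  have h7 := norm_sub_norm_le (DirichletCharacter.LFunction χ (1 + r + Complex.I * t))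
    (DirichletCharacter.LFunction χ s)
  have hDl : 1 ≤ D * l ^ 2 := one_le_mul_of_one_le_of_one_le hD1 (one_le_pow₀ hl)
  have h8 := mul_le_mul_of_nonneg_left h5 (show 0 ≤ D * l ^ 2 by positivity)
  have h9 := mul_le_mul_of_nonneg_left hDl hr0.le
  nlinarith

theorem low_ZfL (q : ℕ) [NeZero q] (χ : DirichletCharacter ℂ q) (hχ : χ ≠ 1) :
    ∃ c : ℝ, 0 < c ∧ ∀ s : ℂ, |s.re - 1| ≤ c → |s.im| ≤ 1 →
      DirichletCharacter.LFunction χ s ≠ 0 ∧ ‖(DirichletCharacter.LFunction χ s)⁻¹‖ ≤ 1 / c := by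
  obtain ⟨c, hc, -, h⟩ := MP_e23604_nt.P.zf_L one_pos
  have hq : (1 : ℝ) ≤ q := by exact_mod_cast NeZero.one_le
  obtain ⟨δ, hδ⟩ : ∃ δ : ℝ, δ = c * ((q : ℝ) * 1) ^ (-(1 : ℝ)) := ⟨_, rfl⟩
  have hδ0 : 0 < δ := by rw [hδ]; positivity
  have hne : ∀ s : ℂ, |s.re - 1| ≤ δ → |s.im| ≤ 1 → DirichletCharacter.LFunction χ s ≠ 0 :=
    fun s h1 h2 => (h q χ hχ 1 le_rfl s (hδ ▸ h1) h2).1
  have hK : IsCompact (Set.Icc (1 - δ) (1 + δ) ×ℂ Set.Icc (-1 : ℝ) 1) :=
    isCompact_Icc.reProdIm isCompact_Icc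
  have hmem : ∀ s : ℂ, s ∈ Set.Icc (1 - δ) (1 + δ) ×ℂ Set.Icc (-1 : ℝ) 1 ↔
      |s.re - 1| ≤ δ ∧ |s.im| ≤ 1 := fun s => by
    rw [Complex.mem_reProdIm, abs_le, abs_le, Set.mem_Icc, Set.mem_Icc]
    constructor
    · rintro ⟨⟨a, b⟩, c, d⟩
      exact ⟨⟨by linarith, by linarith⟩, c, d⟩
    · rintro ⟨⟨a, b⟩, c, d⟩
      exact ⟨⟨by linarith, by linarith⟩, c, d⟩
  obtain ⟨C, hC⟩ := hK.exists_bound_of_continuousOn
    (f := fun s => (DirichletCharacter.LFunction χ s)⁻¹)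
    ((DirichletCharacter.differentiable_LFunction hχ).continuous.continuousOn.inv₀
      fun s hs => hne s ((hmem s).1 hs).1 ((hmem s).1 hs).2)
  have hC0 : 0 < |C| + 1 := by positivity
  refine ⟨min δ (1 / (|C| + 1)), by positivity, fun s h1 h2 => ?_⟩
  have h3 : |s.re - 1| ≤ δ := h1.trans (min_le_left _ _)
  refine ⟨hne s h3 h2, (hC s ((hmem s).2 ⟨h3, h2⟩)).trans ?_⟩
  calc C ≤ |C| + 1 := by linarith [le_abs_self C]
    _ = 1 / (1 / (|C| + 1)) := (one_div_one_div _).symm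
    _ ≤ _ := one_div_le_one_div_of_le (by positivity) (min_le_right _ _)

theorem zfL_stmt : ZfLStmt := by
  intro q _ χ hχ
  obtain ⟨c₁, h1, h14, H1⟩ := high_ZfL q χ hχ
  obtain ⟨c₂, h2, H2⟩ := low_ZfL q χ hχ
  have hc : 0 < min c₁ c₂ := lt_min h1 h2
  refine ⟨min c₁ c₂, hc, (min_le_left _ _).trans h14, fun T hT s hs hsT => ?_⟩
  have hl := log_ge_ZfL hT
  have H3 := H1 T hT s
  generalize Real.log T = l at *
  have hl0 : 0 < l := by linarith
  have h9 : l ^ 9 ≤ l ^ 30 := pow_le_pow_right₀ hl (by norm_num)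
  have h30 : 1 ≤ l ^ 30 := one_le_pow₀ hl
  rcases le_total 1 |s.im| with h | h
  · have h3 := H3 (hs.trans (div_le_div₀ h1.le (min_le_left _ _) (by positivity) h9)) hsT h
    have h4 : 0 < c₁ / l ^ 9 := by positivity
    refine ⟨norm_pos_iff.1 (h4.trans_le h3), ?_⟩
    rw [norm_inv]
    calc _ ≤ (c₁ / l ^ 9)⁻¹ := inv_anti₀ h4 h3
      _ = l ^ 9 / c₁ := inv_div _ _
      _ ≤ _ := div_le_div₀ (by positivity) h9 hc (min_le_left _ _)
  · obtain ⟨h3, h4⟩ := H2 s (hs.trans ((div_le_self hc.le h30).trans (min_le_right _ _))) h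
    exact ⟨h3, h4.trans (div_le_div₀ (by positivity) h30 hc (min_le_right _ _))⟩

end Pool.Agent.MP_4fffd4_nt.AN
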