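import Pool.Agent.MP_4fffd4_nt.AN.GStmts
import Pool.Agent.MP_e23604_nt.P.SZfZ
open Finset Filter
open scoped BigOperators ComplexConjugate Topology
noncomputable section
namespace Pool.Agent.MP_4fffd4_nt.AN
open Pool.Agent.MP_4fffd4_nt.SX
open Pool.Agent.MP_e23604_nt.P

theorem seg_ZfZ {f : ℂ → ℂ} {r D t : ℝ} (hr : 0 < r) (hD : 0 ≤ D)
    (hf : ∀ σ : ℝ, |σ - 1| ≤ r → DifferentiableAt ℂ f (σ + t * Complex.I) ∧
      ‖deriv f (σ + t * Complex.I)‖ ≤ D) (σ : ℝ) (hσ : |σ - 1| ≤ r) :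
    ‖f (((1 + r : ℝ) : ℂ) + t * Complex.I)‖ - 2 * r * D ≤ ‖f (σ + t * Complex.I)‖ := by
  have hmem : ∀ x : ℝ, x ∈ Set.Icc (1 - r) (1 + r) ↔ |x - 1| ≤ r := by
    intro x
    rw [abs_le, Set.mem_Icc]
    constructor <;> rintro ⟨a, b⟩ <;> constructor <;> linarith
  have hder : ∀ x ∈ Set.Icc (1 - r) (1 + r),
      HasDerivWithinAt (fun y : ℝ => f (y + t * Complex.I)) (deriv f (x + t * Complex.I))
        (Set.Icc (1 - r) (1 + r)) x := by
    intro x hx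
    have h1 := ((hf x ((hmem x).1 hx)).1.hasDerivAt).comp_add_const
    exact h1.comp_ofReal.hasDerivWithinAt
  have h2 := (convex_Icc (1 - r) (1 + r)).norm_image_sub_le_of_norm_hasDerivWithin_le hder
    (fun x hx => (hf x ((hmem x).1 hx)).2) ((hmem σ).2 hσ) (Set.right_mem_Icc.2 (by linarith))
  have h3 : ‖1 + r - σ‖ ≤ 2 * r := by
    rw [Real.norm_eq_abs, abs_le]
    have := abs_le.1 hσ
    constructor <;> linarith [this.1, this.2]
  have h4 := norm_sub_norm_le (f (((1 + r : ℝ) : ℂ) + t * Complex.I)) (f (σ + t * Complex.I))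
  have h5 : D * ‖1 + r - σ‖ ≤ D * (2 * r) := mul_le_mul_of_nonneg_left h3 hD
  linarith

theorem low_ZfZ {r A P T t : ℝ} (hA : 1 ≤ A) (hP : 1 ≤ P) (hr : 0 < r) (hr1 : r ≤ 1)
    (ht : |t| ≤ T) (hT : 1 ≤ T) (hc : 1 < 4 * A * |t|)
    (hb : ∀ s : ℂ, 1 - r ≤ s.re → ‖s‖ ≤ 4 * T → ‖zH s‖ ≤ A * P ∧ ‖deriv zH s‖ ≤ A * P)
    (h : 32 * 36 ^ 4 * A ^ 9 * (r * P ^ 5) < 1) :
    36 * r * A ^ 2 * P ≤ ‖riemannZeta (((1 + r : ℝ) : ℂ) + t * Complex.I)‖ := by
  have ht0 := abs_nonneg t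
  have hsub : ∀ u : ℝ, ((1 + r : ℝ) : ℂ) + u * Complex.I - 1 = (r : ℂ) + u * Complex.I := by
    intro u; push_cast; ring
  have htp : 0 < |t| := by
    rcases ht0.lt_or_eq with h1 | h1
    · exact h1
    · rw [← h1] at hc; linarith
  have hne : ∀ u : ℝ, ((1 + r : ℝ) : ℂ) + u * Complex.I ≠ 1 := by
    intro u h1
    have := congrArg Complex.re h1
    simp at this
    linarith
  have h1 : ‖riemannZeta (((1 + r : ℝ) : ℂ) + (2 * t : ℝ) * Complex.I)‖ ≤ 4 * A * P := by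
    rw [zeta_eq (hne _), hsub]
    refine (norm_add_le _ _).trans ?_
    have h2 : ‖zH (((1 + r : ℝ) : ℂ) + (2 * t : ℝ) * Complex.I)‖ ≤ A * P := by
      refine (hb _ (by simp; linarith) ((xSZfZ_norm _ _).trans ?_)).1
      rw [abs_of_pos (by linarith), abs_mul, abs_two]
      linarith
    have h3 : 2 * |t| ≤ ‖(r : ℂ) + (2 * t : ℝ) * Complex.I‖ := by
      have := xSZfZ_im r (2 * t)
      rwa [abs_mul, abs_two] at this
    have h4 : ‖1 / ((r : ℂ) + (2 * t : ℝ) * Complex.I)‖ ≤ 2 * A := by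
      rw [norm_div, norm_one, div_le_iff₀ (by linarith)]
      nlinarith
    nlinarith
  by_contra h3
  push Not at h3
  have h4 := xSZfZ_341 hr hr1 t
  have h5 : (2 / r) ^ 3 * ‖riemannZeta (((1 + r : ℝ) : ℂ) + t * Complex.I)‖ ^ 4 *
      ‖riemannZeta (((1 + r : ℝ) : ℂ) + (2 * t : ℝ) * Complex.I)‖ ≤
      (2 / r) ^ 3 * (36 * r * A ^ 2 * P) ^ 4 * (4 * A * P) := by
    gcongr
  have h6 : (2 / r) ^ 3 * (36 * r * A ^ 2 * P) ^ 4 * (4 * A * P) =
      32 * 36 ^ 4 * A ^ 9 * (r * P ^ 5) := by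
    field_simp
    ring
  linarith

theorem main_ZfZ {r A P T t : ℝ} (hA : 1 ≤ A) (hP : 1 ≤ P) (hr : 0 < r) (hT : 1 ≤ T)
    (hrA : 24 * A * r ≤ 1) (ht : |t| ≤ T)
    (hb1 : ∀ s : ℂ, 1 - r ≤ s.re → ‖s‖ ≤ 4 * 1 → ‖zH s‖ ≤ A ∧ ‖deriv zH s‖ ≤ A)
    (hb : ∀ s : ℂ, 1 - r ≤ s.re → ‖s‖ ≤ 4 * T → ‖zH s‖ ≤ A * P ∧ ‖deriv zH s‖ ≤ A * P)
    (h : 32 * 36 ^ 4 * A ^ 9 * (r * P ^ 5) < 1) (σ : ℝ) (hσ : |σ - 1| ≤ r)
    (hne : (σ : ℂ) + t * Complex.I ≠ 1) : r ≤ ‖riemannZeta (σ + t * Complex.I)‖ := by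
  have hr1 : r ≤ 1 / 24 := by nlinarith
  have ht0 := abs_nonneg t
  have h1 := abs_le.1 hσ
  have hz : ∀ s : ℂ, s ≠ 1 → ‖zeta1 s‖ = ‖s - 1‖ * ‖riemannZeta s‖ := fun s hs => by
    unfold zeta1
    rw [Function.update_of_ne hs, norm_mul]
  have h5 : ‖(σ : ℂ) + t * Complex.I - 1‖ ≤ r + |t| := by
    have : (σ : ℂ) + t * Complex.I - 1 = ((σ - 1 : ℝ) : ℂ) + t * Complex.I := by
      push_cast; ring
    rw [this]
    exact (xSZfZ_norm _ _).trans (by linarith)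
  have hn := norm_nonneg (riemannZeta (σ + t * Complex.I))
  have h6 : ‖zeta1 (σ + t * Complex.I)‖ ≤ (r + |t|) * ‖riemannZeta (σ + t * Complex.I)‖ := by
    rw [hz _ hne]
    exact mul_le_mul_of_nonneg_right h5 hn
  by_cases hc : 4 * A * |t| ≤ 1
  · have ht1 : |t| ≤ 1 / 4 := by nlinarith
    have h2 : ‖zH (σ + t * Complex.I)‖ ≤ A := by
      refine (hb1 _ (by simp; linarith [h1.1]) ((xSZfZ_norm _ _).trans ?_)).1
      have : |σ| ≤ 2 := abs_le.2 ⟨by linarith [h1.1], by linarith [h1.2]⟩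
      linarith
    have h3 : ‖((σ : ℂ) + t * Complex.I - 1) * zH (σ + t * Complex.I)‖ ≤ (r + |t|) * A := by
      rw [norm_mul]
      exact mul_le_mul h5 h2 (norm_nonneg _) (by positivity)
    have h4 := norm_sub_le
      (1 + ((σ : ℂ) + t * Complex.I - 1) * zH (σ + t * Complex.I))
      (((σ : ℂ) + t * Complex.I - 1) * zH (σ + t * Complex.I))
    rw [add_sub_cancel_right, norm_one, ← zeta1_eq] at h4
    nlinarith
  · push Not at hc
    have htp : 0 < |t| := by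
      rcases ht0.lt_or_eq with h2 | h2
      · exact h2
      · rw [← h2] at hc; linarith
    have h2 := low_ZfZ hA hP hr (by linarith) ht hT hc hb h
    have h3 := seg_ZfZ (f := zeta1) (D := 9 * A ^ 2 * P * |t|) (t := t) hr (by positivity)
      (fun σ hσ => ⟨zeta1_diff _, by
        refine (xSZfZ_D (by linarith) hT ht hb σ hσ).trans ?_
        have h1 : 2 + |t| ≤ 9 * A * |t| := by nlinarith
        calc A * P * (2 + |t|) ≤ A * P * (9 * A * |t|) := by gcongr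
          _ = 9 * A ^ 2 * P * |t| := by ring⟩) σ hσ
    have hne' : ((1 + r : ℝ) : ℂ) + t * Complex.I ≠ 1 := by
      intro h4
      have := congrArg Complex.re h4
      simp at this
      linarith
    have hsub : ((1 + r : ℝ) : ℂ) + t * Complex.I - 1 = (r : ℂ) + t * Complex.I := by
      push_cast; ring
    have h4 : |t| * (36 * r * A ^ 2 * P) ≤ ‖zeta1 (((1 + r : ℝ) : ℂ) + t * Complex.I)‖ := by
      rw [hz _ hne', hsub]
      exact mul_le_mul (xSZfZ_im r t) h2 (by positivity) (norm_nonneg _)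
    have h7 : r ≤ |t| := by nlinarith
    have h8 : 1 ≤ A ^ 2 * P := one_le_mul_of_one_le_of_one_le (one_le_pow₀ hA) hP
    have h9 : |t| * r ≤ |t| * r * (A ^ 2 * P) := le_mul_of_one_le_right (by positivity) h8
    have h10 : (r + |t|) * ‖riemannZeta (σ + t * Complex.I)‖ ≤
        2 * |t| * ‖riemannZeta (σ + t * Complex.I)‖ :=
      mul_le_mul_of_nonneg_right (by linarith) hn
    have h11 : 0 ≤ |t| * r := by positivity
    refine le_of_mul_le_mul_left ?_ htp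
    nlinarith

theorem zfZ_stmt : ZfZStmt := by
  obtain ⟨c, hce⟩ : ∃ c : ℝ, c = 1 / (64 * 36 ^ 4 * 960 ^ 9 * 3 ^ 5) := ⟨_, rfl⟩
  have hc0 : 0 < c := by rw [hce]; positivity
  have hc1 : 64 * 36 ^ 4 * 960 ^ 9 * 3 ^ 5 * c = 1 := by rw [hce]; field_simp
  have hc2 : 24 * 960 * c ≤ 1 := by rw [hce]; norm_num
  refine ⟨c, hc0, by linarith, fun T hT s hs1 hs ht => ?_⟩
  have hT0 : 0 < T := by linarith
  obtain ⟨l, hl⟩ : ∃ l, l = Real.log T := ⟨_, rfl⟩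
  have hl1 : 1 ≤ l := by
    rw [hl, Real.le_log_iff_exp_le hT0]
    linarith [Real.exp_one_lt_d9]
  rw [← hl] at hs ⊢
  have hl0 : 0 < l := by linarith
  have h0 : 0 < 1 / (2 * l) := by positivity
  have h1 : 1 / (2 * l) ≤ 1 / 2 := one_div_le_one_div_of_le two_pos (by linarith)
  have hA : 240 / (1 / (2 * l)) ^ 2 = 960 * l ^ 2 := by field_simp; norm_num
  have hP : T ^ (2 * (1 / (2 * l))) ≤ 3 := by
    have e : Real.log T * (2 * (1 / (2 * l))) = 1 := by rw [← hl]; field_simp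
    rw [Real.rpow_def_of_pos hT0, e]
    linarith [Real.exp_one_lt_d9]
  have hr0 : 0 < c / l ^ 30 := by positivity
  have hpow : ∀ k : ℕ, k ≤ 30 → l ^ k * (c / l ^ 30) ≤ c := fun k hk => by
    rw [← mul_div_assoc, div_le_iff₀ (by positivity), mul_comm]
    exact mul_le_mul_of_nonneg_left (pow_le_pow_right₀ hl1 hk) hc0.le
  have hr : c / l ^ 30 ≤ 1 / (2 * l) / 2 := by
    have h2 := hpow 1 (by norm_num)
    rw [div_div, le_div_iff₀ (by positivity)]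
    nlinarith
  have hl2 : 1 ≤ l ^ 2 := one_le_pow₀ hl1
  have hm := main_ZfZ (r := c / l ^ 30) (A := 960 * l ^ 2) (P := 3) (T := T) (t := s.im)
    (by linarith) (by norm_num) hr0 (by linarith) (by nlinarith [hpow 2 (by norm_num)]) ht
    (fun s h3 h4 => by
      have := xSZfZ_bd h0 h1 le_rfl (s := s) (by linarith) h4
      rwa [Real.one_rpow, mul_one, hA] at this)
    (fun s h3 h4 => by
      have := xSZfZ_bd h0 h1 (T := T) (by linarith) (s := s) (by linarith) h4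
      rw [hA] at this
      have h5 : 960 * l ^ 2 * T ^ (2 * (1 / (2 * l))) ≤ 960 * l ^ 2 * 3 := by gcongr
      exact ⟨this.1.trans h5, this.2.trans h5⟩)
    (by
      have h3 := hpow 18 (by norm_num)
      have h4 : 32 * 36 ^ 4 * (960 * l ^ 2) ^ 9 * (c / l ^ 30 * 3 ^ 5) =
          32 * 36 ^ 4 * 960 ^ 9 * 3 ^ 5 * (l ^ 18 * (c / l ^ 30)) := by ring
      rw [h4]
      linarith)
    s.re hs (by rwa [Complex.re_add_im])
  rw [Complex.re_add_im] at hm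
  refine ⟨norm_pos_iff.1 (hr0.trans_le hm), ?_⟩
  rw [norm_inv, ← inv_div]
  exact inv_anti₀ hr0 hm

end Pool.Agent.MP_4fffd4_nt.AN
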